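import Mathlib

/-! The arithmetic of the pointwise theorem.
Text: team-store MP_e27144_an_slowvar_helper50.md, section 2. -/

namespace Pool.Agent.SlowV

open scoped BigOperators

private theorem ar_core (W E κ K L g R η m σ ρ Q : ℝ)
    (hκ : κ ≤ 1 / 64) (hK : 1 ≤ K) (hL : 3 * (K + 2) ≤ L)
    (hg : 256 ≤ g) (hR : R = L * g) (hη : 0 ≤ η) (hηR : η * R ≤ g / 8)
    (hgR : 64 * m ≤ g * R)
    (hσ : g / 2 ≤ σ) (hσR : σ ≤ R) (hρ : ρ ≤ σ + η * R) (hρ0 : 0 ≤ ρ)
    (hQ1 : Q ≤ ρ * ρ) (hQ2 : Q ≤ (R - σ) * ρ)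
    (hE : (R - κ * g) ^ 2 - ((R - σ) ^ 2 + Q + 8 * R + 4 * m) ≤ W * E) :
    σ * R / 2 ≤ W * E := by
  have hR9 : 9 * g ≤ R := by
    rw [hR]
    have : 9 ≤ L := by linarith
    nlinarith
  have hRpos : 0 < R := by linarith
  have h1 : κ * (g * R) ≤ g * R / 64 := by
    have : 0 ≤ g * R := by positivity
    nlinarith
  have h2 : 8 * R ≤ g * R / 32 := by nlinarith
  have h3 : g * R / 2 ≤ σ * R := by nlinarith
  have h4 : 0 ≤ (κ * g) ^ 2 := sq_nonneg _
  have h5 : η * R * R ≤ g / 8 * R := mul_le_mul_of_nonneg_right hηR hRpos.le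
  have h6 : 0 ≤ η * R := by positivity
  rcases le_or_gt σ (R / 2) with hc | hc
  · -- small σ
    have h7 : ρ * ρ ≤ (σ + η * R) * (σ + η * R) := mul_le_mul hρ hρ hρ0 (by linarith)
    have h8 : σ * (η * R) ≤ σ * (g / 8) := mul_le_mul_of_nonneg_left hηR (by linarith)
    have h9 : (η * R) * (η * R) ≤ (g / 8) * (g / 8) :=
      mul_le_mul hηR hηR h6 (by linarith)
    have h10 : σ * σ ≤ σ * (R / 2) := mul_le_mul_of_nonneg_left hc (by linarith)
    have h11 : σ * g ≤ σ * R / 9 := by nlinarith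
    have h12 : g * g ≤ g * R / 9 := by nlinarith
    nlinarith
  · have h7 : (R - σ) * ρ ≤ (R - σ) * (σ + η * R) :=
      mul_le_mul_of_nonneg_left hρ (by linarith)
    have h8 : (R - σ) * (η * R) ≤ R / 2 * (η * R) :=
      mul_le_mul_of_nonneg_right (by linarith) h6
    nlinarith

/-- the arithmetic of the pointwise theorem -/
theorem arith {ι : Type*} [DecidableEq ι] (S : Finset ι) (t n : ι → ℝ)
    (W E κ K L g R η m : ℝ) (hW : 0 < W) (hE0 : 0 ≤ E)
    (hκ : κ ≤ 1 / 64) (hK : 1 ≤ K) (hL : 3 * (K + 2) ≤ L)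
    (hg : 256 ≤ g) (hR : R = L * g) (hη : 0 ≤ η) (hη1 : η ≤ 1) (hηR : η * R ≤ g / 8)
    (hm : (S.card : ℝ) ≤ m) (hgR : 64 * m ≤ g * R)
    (ht0 : ∀ q ∈ S, 0 ≤ t q) (ht1 : ∀ q ∈ S, t q ≤ R)
    (hsum : ∑ q ∈ S, t q ≤ (1 + η) * R)
    (hn : ∀ q ∈ S, W * n q ≤ 2 * (g + 2) * t q)
    (hn0 : ∀ q ∈ S, n q = 0 ∨ (g < t q ∧ t q < R - K * g))
    (hE : (R - κ * g) ^ 2 - ∑ q ∈ S, (t q + 2) ^ 2 ≤ W * E) :
    ∑ q ∈ S, n q ≤ (16 / L + 8 / K) * E := by
  have hK0 : 0 < K := by linarith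
  have hL0 : 0 < L := by linarith
  have hg0 : 0 < g := by linarith
  have hR0 : 0 < R := by rw [hR]; positivity
  have hcoef : 0 ≤ 16 / L + 8 / K := by positivity
  rcases S.eq_empty_or_nonempty with rfl | hne
  · simp only [Finset.sum_empty]
    exact mul_nonneg hcoef hE0
  obtain ⟨q1, hq1, hmax⟩ := Finset.exists_max_image S t hne
  set σ := R - t q1 with hσ
  set ρ := ∑ q ∈ S.erase q1, t q with hρ
  have hsplit : ∑ q ∈ S, t q = t q1 + ρ := (Finset.add_sum_erase S t hq1).symm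
  have hρle : ρ ≤ σ + η * R := by
    rw [hsplit] at hsum
    rw [hσ]
    linarith
  have hρ0 : 0 ≤ ρ := Finset.sum_nonneg fun q hq => ht0 q (Finset.mem_of_mem_erase hq)
  have htρ : ∀ q ∈ S.erase q1, t q ≤ ρ := fun q hq =>
    Finset.single_le_sum (f := t) (fun q hq => ht0 q (Finset.mem_of_mem_erase hq)) hq
  have hσ0 : 0 ≤ σ := by have := ht1 q1 hq1; rw [hσ]; linarith
  have hσR : σ ≤ R := by have := ht0 q1 hq1; rw [hσ]; linarith
  have hnsplit : ∑ q ∈ S, n q = n q1 + ∑ q ∈ S.erase q1, n q :=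
    (Finset.add_sum_erase S n hq1).symm
  rcases lt_or_ge σ (g / 2) with hc | hc
  · -- all vanish
    have h1 : ∑ q ∈ S, n q = 0 := by
      refine Finset.sum_eq_zero fun q hq => ?_
      rcases hn0 q hq with h | ⟨h2, h3⟩
      · exact h
      · exfalso
        by_cases he : q = q1
        · subst he
          nlinarith
        · have := htρ q (Finset.mem_erase.2 ⟨he, hq⟩)
          linarith
    rw [h1]
    exact mul_nonneg hcoef hE0
  · -- the main case
    have hQ : ∑ q ∈ S.erase q1, t q * t q ≤ ρ * ρ := by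
      rw [hρ, Finset.sum_mul]
      refine Finset.sum_le_sum fun q hq => ?_
      exact mul_le_mul_of_nonneg_left (htρ q hq) (ht0 q (Finset.mem_of_mem_erase hq))
    have hQ2 : ∑ q ∈ S.erase q1, t q * t q ≤ (R - σ) * ρ := by
      rw [hρ, Finset.mul_sum]
      refine Finset.sum_le_sum fun q hq => ?_
      have h1 : R - σ = t q1 := by rw [hσ]; ring
      rw [h1]
      exact mul_le_mul_of_nonneg_right (hmax q (Finset.mem_of_mem_erase hq))
        (ht0 q (Finset.mem_of_mem_erase hq))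
    have hsq : ∑ q ∈ S, (t q + 2) ^ 2 ≤
        (R - σ) ^ 2 + (∑ q ∈ S.erase q1, t q * t q) + 8 * R + 4 * m := by
      have e1 : ∑ q ∈ S, (t q + 2) ^ 2 =
          ∑ q ∈ S, t q * t q + 4 * ∑ q ∈ S, t q + 4 * (S.card : ℝ) := by
        rw [Finset.mul_sum, ← Finset.sum_add_distrib]
        have : (4 : ℝ) * (S.card : ℝ) = ∑ q ∈ S, (4 : ℝ) := by
          rw [Finset.sum_const, nsmul_eq_mul]; ring
        rw [this, ← Finset.sum_add_distrib]
        refine Finset.sum_congr rfl fun q _ => ?_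
        ring
      have e2 : ∑ q ∈ S, t q * t q = t q1 * t q1 + ∑ q ∈ S.erase q1, t q * t q :=
        (Finset.add_sum_erase S (fun q => t q * t q) hq1).symm
      have e3 : R - σ = t q1 := by rw [hσ]; ring
      have e4 : (1 + η) * R ≤ 2 * R := mul_le_mul_of_nonneg_right (by linarith) hR0.le
      rw [e1, e2, e3]
      nlinarith
    have hmain := ar_core W E κ K L g R η m σ ρ (∑ q ∈ S.erase q1, t q * t q) hκ hK hL hg hR
      hη hηR hgR hc hσR hρle hρ0 hQ hQ2 (by linarith)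
    -- the sum of the n
    have hrest : W * ∑ q ∈ S.erase q1, n q ≤ 2 * (g + 2) * (5 / 4 * σ) := by
      have h1 : W * ∑ q ∈ S.erase q1, n q ≤ 2 * (g + 2) * ρ := by
        rw [Finset.mul_sum, hρ, Finset.mul_sum]
        exact Finset.sum_le_sum fun q hq => hn q (Finset.mem_of_mem_erase hq)
      refine h1.trans (mul_le_mul_of_nonneg_left ?_ (by linarith))
      linarith
    have hfirst : W * n q1 ≤ 2 * (g + 2) * (R * σ / (K * g)) := by
      rcases hn0 q1 hq1 with h | ⟨-, h3⟩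
      · rw [h, mul_zero]
        positivity
      · refine (hn q1 hq1).trans (mul_le_mul_of_nonneg_left ?_ (by linarith))
        have h4 : K * g < σ := by rw [hσ]; linarith
        have h5 : t q1 ≤ R := ht1 q1 hq1
        refine h5.trans ?_
        rw [le_div_iff₀ (by positivity)]
        exact mul_le_mul_of_nonneg_left h4.le hR0.le
    have hfin : W * ∑ q ∈ S, n q ≤ W * ((16 / L + 8 / K) * E) := by
      rw [hnsplit, mul_add]
      have h1 : W * ((16 / L + 8 / K) * E) = (16 / L + 8 / K) * (W * E) := by ring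
      rw [h1]
      have h2 : (16 / L + 8 / K) * (σ * R / 2) ≤ (16 / L + 8 / K) * (W * E) :=
        mul_le_mul_of_nonneg_left hmain hcoef
      have h3 : (16 / L + 8 / K) * (σ * R / 2) = 8 * g * σ + 4 * (R * σ / K) := by
        rw [hR]; field_simp; ring
      have h4 : 2 * (g + 2) * (R * σ / (K * g)) ≤ 4 * (R * σ / K) := by
        have e1 : 2 * (g + 2) * (R * σ / (K * g)) = (2 * (g + 2) / g) * (R * σ / K) := by
          field_simp
        rw [e1]
        refine mul_le_mul_of_nonneg_right ?_ (by positivity)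
        rw [div_le_iff₀ hg0]
        linarith
      have h5 : 2 * (g + 2) * (5 / 4 * σ) ≤ 8 * g * σ := by nlinarith
      linarith
    exact le_of_mul_le_mul_left hfin hW

end Pool.Agent.SlowV
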