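import Pool.Agent.SubT.KL

/-! Sharp counts of lattice points in triangles.
Text: team-store MP_e27144_an_slowvar_helper50.md, section 2. -/

namespace Pool.Agent.SlowV

open Pool.Agent.SubT

open scoped BigOperators

/-- twice the covolume of the lattice -/
noncomputable def om2 : ℝ := 2 * (Real.log 2 * Real.log 3)

theorem om2_pos : 0 < om2 := by
  have h2 : 0 < Real.log 2 := Real.log_pos (by norm_num)
  have h3 : 0 < Real.log 3 := Real.log_pos (by norm_num)
  unfold om2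
  positivity

private theorem cnt_card (τ : ℝ) :
    (KL_T τ).card = ∑ b ∈ Finset.range ⌈τ / Real.log 3⌉₊,
      ⌈(τ - b * Real.log 3) / Real.log 2⌉₊ := by
  classical
  have hl2 : 0 < Real.log 2 := Real.log_pos (by norm_num)
  have hl3 : 0 < Real.log 3 := Real.log_pos (by norm_num)
  have h : KL_T τ = ((Finset.range ⌈τ / Real.log 3⌉₊).sigma
      fun b => Finset.range ⌈(τ - b * Real.log 3) / Real.log 2⌉₊).image
        (fun x : (_ : ℕ) × ℕ => (x.2, x.1)) := by
    ext ⟨a, b⟩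
    rw [KL_mem_T]
    simp only [Finset.mem_image, Finset.mem_sigma, Finset.mem_range, Sigma.exists, Prod.mk.injEq]
    constructor
    · intro hab
      refine ⟨b, a, ⟨?_, ?_⟩, rfl, rfl⟩
      · rw [Nat.lt_ceil, lt_div_iff₀ hl3]
        unfold LL at hab
        have : (0 : ℝ) ≤ a * Real.log 2 := by positivity
        linarith
      · rw [Nat.lt_ceil, lt_div_iff₀ hl2]
        unfold LL at hab
        linarith
    · rintro ⟨b', a', ⟨-, h2⟩, rfl, rfl⟩
      rw [Nat.lt_ceil, lt_div_iff₀ hl2] at h2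
      unfold LL
      linarith
  rw [h, Finset.card_image_of_injective, Finset.card_sigma]
  · simp only [Finset.card_range]
  · rintro ⟨b, a⟩ ⟨b', a'⟩ hx
    simp only [Prod.mk.injEq] at hx
    obtain ⟨rfl, rfl⟩ := hx
    rfl

private theorem cnt_sum (l2 l3 τ : ℝ) (hl2 : 0 < l2) (m : ℕ) :
    ∑ b ∈ Finset.range m, (τ - b * l3) / l2 = m * (2 * τ - l3 * (m - 1)) / (2 * l2) := by
  induction m with
  | zero => simp
  | succ m ih =>
    rw [Finset.sum_range_succ, ih]
    push_cast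
    field_simp
    ring

/-- lower bound -/
theorem cnt_ge (τ : ℝ) (hτ : 0 ≤ τ) : τ ^ 2 ≤ om2 * ((KL_T τ).card : ℝ) := by
  have hl2 : 0 < Real.log 2 := Real.log_pos (by norm_num)
  have hl3 : 0 < Real.log 3 := Real.log_pos (by norm_num)
  rw [cnt_card]
  push_cast
  set m := ⌈τ / Real.log 3⌉₊ with hm
  have h1 : ∑ b ∈ Finset.range m, (τ - b * Real.log 3) / Real.log 2 ≤
      ∑ b ∈ Finset.range m, (⌈(τ - b * Real.log 3) / Real.log 2⌉₊ : ℝ) :=
    Finset.sum_le_sum fun b _ => Nat.le_ceil _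
  rw [cnt_sum _ _ _ hl2] at h1
  have h2 : τ ≤ m * Real.log 3 := by
    have := Nat.le_ceil (τ / Real.log 3)
    rwa [div_le_iff₀ hl3] at this
  have h3 : m * Real.log 3 ≤ τ + Real.log 3 := by
    have := (Nat.ceil_lt_add_one (div_nonneg hτ hl3.le)).le
    rw [← hm] at this
    have h4 : (m : ℝ) * Real.log 3 ≤ (τ / Real.log 3 + 1) * Real.log 3 :=
      mul_le_mul_of_nonneg_right this hl3.le
    have h5 : (τ / Real.log 3 + 1) * Real.log 3 = τ + Real.log 3 := by field_simp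
    linarith
  set S := ∑ b ∈ Finset.range m, (⌈(τ - b * Real.log 3) / Real.log 2⌉₊ : ℝ)
  unfold om2
  have h6 : 2 * (Real.log 2 * Real.log 3) * (m * (2 * τ - Real.log 3 * (m - 1)) / (2 * Real.log 2)) =
      (m * Real.log 3) * (2 * τ - m * Real.log 3 + Real.log 3) := by
    field_simp
    ring
  have h7 : τ ^ 2 ≤ (m * Real.log 3) * (2 * τ - m * Real.log 3 + Real.log 3) := by
    nlinarith
  calc τ ^ 2 ≤ 2 * (Real.log 2 * Real.log 3) *
        (m * (2 * τ - Real.log 3 * (m - 1)) / (2 * Real.log 2)) := by rw [h6]; exact h7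
    _ ≤ _ := mul_le_mul_of_nonneg_left h1 (by positivity)

/-- upper bound -/
theorem cnt_le (τ : ℝ) (hτ : 0 ≤ τ) : om2 * ((KL_T τ).card : ℝ) ≤ (τ + 2) ^ 2 := by
  have hl2 : 0 < Real.log 2 := Real.log_pos (by norm_num)
  have hl3 : 0 < Real.log 3 := Real.log_pos (by norm_num)
  obtain ⟨a1, a2⟩ := CNT_log2
  obtain ⟨b1, b2⟩ := CNT_log3
  rw [cnt_card]
  push_cast
  set m := ⌈τ / Real.log 3⌉₊ with hm
  have h2 : τ ≤ m * Real.log 3 := by
    have := Nat.le_ceil (τ / Real.log 3)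
    rwa [div_le_iff₀ hl3] at this
  have h3 : m * Real.log 3 ≤ τ + Real.log 3 := by
    have := (Nat.ceil_lt_add_one (div_nonneg hτ hl3.le)).le
    rw [← hm] at this
    have h4 : (m : ℝ) * Real.log 3 ≤ (τ / Real.log 3 + 1) * Real.log 3 :=
      mul_le_mul_of_nonneg_right this hl3.le
    have h5 : (τ / Real.log 3 + 1) * Real.log 3 = τ + Real.log 3 := by field_simp
    linarith
  have h1 : ∑ b ∈ Finset.range m, (⌈(τ - b * Real.log 3) / Real.log 2⌉₊ : ℝ) ≤
      ∑ b ∈ Finset.range m, ((τ - b * Real.log 3) / Real.log 2 + 1) := by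
    refine Finset.sum_le_sum fun b hb => ?_
    refine (Nat.ceil_lt_add_one (div_nonneg ?_ hl2.le)).le
    have h4 := Finset.mem_range.1 hb
    rw [hm, Nat.lt_ceil, lt_div_iff₀ hl3] at h4
    linarith
  rw [Finset.sum_add_distrib, cnt_sum _ _ _ hl2, Finset.sum_const, Finset.card_range,
    nsmul_eq_mul, mul_one] at h1
  set S := ∑ b ∈ Finset.range m, (⌈(τ - b * Real.log 3) / Real.log 2⌉₊ : ℝ)
  unfold om2
  have h6 : 2 * (Real.log 2 * Real.log 3) *
      (m * (2 * τ - Real.log 3 * (m - 1)) / (2 * Real.log 2) + m) =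
      (m * Real.log 3) * (2 * τ - m * Real.log 3 + Real.log 3 + 2 * Real.log 2) := by
    field_simp
    ring
  refine (mul_le_mul_of_nonneg_left h1 (by positivity)).trans ?_
  rw [h6]
  nlinarith

/-- points of a strip -/
theorem cnt_strip (τ g : ℝ) (hτ : 0 ≤ τ) (hg : 2 ≤ g) :
    om2 * (((KL_T τ \ KL_T (τ - g)).card : ℕ) : ℝ) ≤ 2 * (g + 2) * (τ + g) := by
  have hsub : KL_T (τ - g) ⊆ KL_T τ := by
    intro p hp
    rw [KL_mem_T] at hp ⊢
    linarith
  have h1 : (((KL_T τ \ KL_T (τ - g)).card : ℕ) : ℝ) =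
      ((KL_T τ).card : ℝ) - ((KL_T (τ - g)).card : ℝ) := by
    rw [Finset.card_sdiff_of_subset hsub, Nat.cast_sub (Finset.card_le_card hsub)]
  have h2 := cnt_le τ hτ
  rw [h1, mul_sub]
  rcases le_or_gt g τ with h | h
  · have h3 := cnt_ge (τ - g) (by linarith)
    nlinarith
  · have h4 : 0 ≤ om2 * ((KL_T (τ - g)).card : ℝ) :=
      mul_nonneg om2_pos.le (Nat.cast_nonneg _)
    nlinarith

end Pool.Agent.SlowV
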