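import Pool.Agent.SlowV.Slow
import Pool.Agent.SubT.Dim1

/-! Divergence of the sums `∑ (log k_{j+1}) ^ c ∫ ‖k_j x‖ dμ` and the uniform lower bound.
Text: team-store MP_e27144_an_slowvar_helper50.md. -/

namespace Pool.Agent.SlowV

open Pool.Agent.SubT

open scoped BigOperators ENNReal

open MeasureTheory Set Filter Topology

private theorem dv_exp (m : ℝ) (hm : 0 < m) : Real.exp (-(4 * Real.log m)) = 1 / m ^ 4 := by
  rw [Real.exp_neg, ← one_div]
  congr 1
  have : (4 : ℝ) * Real.log m = Real.log (m ^ 4) := by rw [Real.log_pow]; push_cast; ring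
  rw [this, Real.exp_log (by positivity)]

/-- if consecutive approximations are extremely good then the point is rational -/
theorem dv_rat (k : ℕ → ℕ) (hk : StrictMono k) (hk0 : 1 ≤ k 0)
    (y : ℝ) (p : ℕ → ℤ) (j0 : ℕ)
    (hp : ∀ j, j0 ≤ j → |(k j : ℝ) * y - p j| < Real.exp (-(4 * Real.log (k (j + 1))))) :
    y = (p j0 : ℝ) / k j0 := by
  have hge : ∀ j, j + 1 ≤ k j := by
    intro j
    induction j with
    | zero => simpa using hk0
    | succ j ih =>
      have h1 : k j < k (j + 1) := hk (Nat.lt_succ_self j)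
      omega
  have hkpos : ∀ j, (0 : ℝ) < (k j : ℝ) := fun j => by
    have := hge j
    exact_mod_cast (by omega : 0 < k j)
  have hk1 : ∀ j, (1 : ℝ) ≤ (k j : ℝ) := fun j => by
    have := hge j
    exact_mod_cast (by omega : 1 ≤ k j)
  have hk2 : ∀ j, (2 : ℝ) ≤ (k (j + 1) : ℝ) := fun j => by
    have := hge (j + 1)
    exact_mod_cast (by omega : 2 ≤ k (j + 1))
  have hp' : ∀ j, j0 ≤ j → |(k j : ℝ) * y - p j| < 1 / (k (j + 1) : ℝ) ^ 4 := fun j hj => by
    rw [← dv_exp _ (hkpos _)]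
    exact hp j hj
  have hmono : ∀ j, (k j : ℝ) ≤ (k (j + 1) : ℝ) := fun j => by
    exact_mod_cast (hk (Nat.lt_succ_self j)).le
  -- `m / m ^ 4 < 1 / 2` for `m ≥ 2`
  have hm : ∀ a m : ℝ, 2 ≤ m → 0 ≤ a → a ≤ m → a * (1 / m ^ 4) < 1 / 2 := by
    intro a m hm ha ham
    have hm0 : 0 < m := by linarith
    have h1 : a * (1 / m ^ 4) ≤ m * (1 / m ^ 4) :=
      mul_le_mul_of_nonneg_right ham (by positivity)
    have h2 : m * (1 / m ^ 4) = 1 / m ^ 3 := by field_simp
    have h3 : (8 : ℝ) ≤ m ^ 3 := by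
      have : (2 : ℝ) ^ 3 ≤ m ^ 3 := pow_le_pow_left₀ (by norm_num) hm 3
      linarith
    have h4 : 1 / m ^ 3 ≤ 1 / 8 := one_div_le_one_div_of_le (by norm_num) h3
    linarith
  have hcons : ∀ j, j0 ≤ j → (p j : ℝ) / k j = (p (j + 1) : ℝ) / k (j + 1) := by
    intro j hj
    have e1 := hp' j hj
    have e2 := hp' (j + 1) (by omega)
    have b1 : (k (j + 1) : ℝ) * |(k j : ℝ) * y - p j| < 1 / 2 :=
      lt_of_le_of_lt (mul_le_mul_of_nonneg_left e1.le (hkpos _).le)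
        (hm _ _ (hk2 j) (hkpos _).le le_rfl)
    have b2 : (k j : ℝ) * |(k (j + 1) : ℝ) * y - p (j + 1)| < 1 / 2 :=
      lt_of_le_of_lt (mul_le_mul_of_nonneg_left e2.le (hkpos _).le)
        (hm _ _ (hk2 (j + 1)) (hkpos _).le ((hmono j).trans (hmono (j + 1))))
    have hint : |((p j * (k (j + 1) : ℤ) - p (j + 1) * (k j : ℤ) : ℤ) : ℝ)| < 1 := by
      have heq : ((p j * (k (j + 1) : ℤ) - p (j + 1) * (k j : ℤ) : ℤ) : ℝ)
          = (k j : ℝ) * ((k (j + 1) : ℝ) * y - p (j + 1))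
            - (k (j + 1) : ℝ) * ((k j : ℝ) * y - p j) := by
        push_cast
        ring
      rw [heq]
      calc |(k j : ℝ) * ((k (j + 1) : ℝ) * y - p (j + 1))
            - (k (j + 1) : ℝ) * ((k j : ℝ) * y - p j)|
          ≤ |(k j : ℝ) * ((k (j + 1) : ℝ) * y - p (j + 1))|
            + |(k (j + 1) : ℝ) * ((k j : ℝ) * y - p j)| := abs_sub _ _
        _ = (k j : ℝ) * |(k (j + 1) : ℝ) * y - p (j + 1)|
            + (k (j + 1) : ℝ) * |(k j : ℝ) * y - p j| := by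
            rw [abs_mul, abs_mul, abs_of_pos (hkpos j), abs_of_pos (hkpos (j + 1))]
        _ < 1 := by linarith
    have hzero : p j * (k (j + 1) : ℤ) - p (j + 1) * (k j : ℤ) = 0 := by
      have h1 : |p j * (k (j + 1) : ℤ) - p (j + 1) * (k j : ℤ)| < 1 := by
        have := hint
        rw [← Int.cast_abs] at this
        exact_mod_cast this
      exact Int.abs_lt_one_iff.mp h1
    rw [div_eq_div_iff (hkpos j).ne' (hkpos (j + 1)).ne']
    have : (p j * (k (j + 1) : ℤ) : ℤ) = p (j + 1) * (k j : ℤ) := by linarith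
    exact_mod_cast this
  have hall : ∀ i, (p (j0 + i) : ℝ) / k (j0 + i) = (p j0 : ℝ) / k j0 := by
    intro i
    induction i with
    | zero => rfl
    | succ i ih => rw [← ih, ← add_assoc, hcons (j0 + i) (by omega)]
  by_contra hne
  have hd : 0 < |y - (p j0 : ℝ) / k j0| := abs_pos.mpr (sub_ne_zero.mpr hne)
  have hb : ∀ i : ℕ, |y - (p j0 : ℝ) / k j0| ≤ 1 / ((i : ℝ) + 1) := by
    intro i
    have e1 := hp' (j0 + i) (by omega)
    rw [← hall i]
    have hk0' := hkpos (j0 + i)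
    have heq : y - (p (j0 + i) : ℝ) / k (j0 + i)
        = ((k (j0 + i) : ℝ) * y - p (j0 + i)) / k (j0 + i) := by
      field_simp
    rw [heq, abs_div, abs_of_pos hk0']
    have h3 : ((i : ℝ) + 1) ≤ (k (j0 + i + 1) : ℝ) ^ 4 := by
      have h4 : ((i : ℝ) + 1) ≤ (k (j0 + i + 1) : ℝ) := by
        have := hge (j0 + i + 1)
        exact_mod_cast (by omega : i + 1 ≤ k (j0 + i + 1))
      refine h4.trans ?_
      exact le_self_pow₀ (hk1 _) (by norm_num)
    calc |(k (j0 + i) : ℝ) * y - p (j0 + i)| / k (j0 + i)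
        ≤ |(k (j0 + i) : ℝ) * y - p (j0 + i)| := div_le_self (abs_nonneg _) (hk1 _)
      _ ≤ 1 / (k (j0 + i + 1) : ℝ) ^ 4 := e1.le
      _ ≤ 1 / ((i : ℝ) + 1) := one_div_le_one_div_of_le (by positivity) h3
  have hlim : Tendsto (fun i : ℕ => 1 / ((i : ℝ) + 1)) atTop (𝓝 0) :=
    tendsto_one_div_add_atTop_nhds_zero_nat
  have := ge_of_tendsto' hlim hb
  linarith

/-- Markov's inequality. -/
private theorem dv_markov (μ : Measure (AddCircle (1 : ℝ))) [IsProbabilityMeasure μ] (k : ℕ) :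
    μ {x : AddCircle (1 : ℝ) | 1 / 36 ≤ ‖k • x‖} ≤ ENNReal.ofReal (36 * ∫ x, ‖k • x‖ ∂μ) := by
  have hcont : Continuous (fun x : AddCircle (1 : ℝ) => ‖k • x‖) := by fun_prop
  have hbdd : ∀ x : AddCircle (1 : ℝ), ‖k • x‖ ≤ 1 / 2 := by
    intro x
    have := AddCircle.norm_le_half_period (p := (1 : ℝ)) (x := k • x) one_ne_zero
    simpa using this
  have hintg : Integrable (fun x : AddCircle (1 : ℝ) => ‖k • x‖) μ := by
    refine Integrable.mono' (integrable_const (1 / 2 : ℝ)) hcont.aestronglyMeasurable ?_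
    refine Filter.Eventually.of_forall fun x => ?_
    rw [Real.norm_eq_abs, abs_of_nonneg (norm_nonneg _)]
    exact hbdd x
  have hmk := mul_meas_ge_le_integral_of_nonneg (μ := μ)
    (f := fun x : AddCircle (1 : ℝ) => ‖k • x‖) (Filter.Eventually.of_forall fun x => norm_nonneg _)
    hintg (1 / 36)
  rw [← ofReal_measureReal]
  refine ENNReal.ofReal_le_ofReal ?_
  linarith

/-- DIVERGENCE, general form. -/
theorem div_gen (μ : Measure (AddCircle (1 : ℝ))) [IsProbabilityMeasure μ]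
    (h2 : MeasurePreserving (fun x => (2 : ℕ) • x) μ μ)
    (h3 : MeasurePreserving (fun x => (3 : ℕ) • x) μ μ) (hat : ∀ x, μ {x} = 0)
    (c : ℝ) (hc : 0 < c) (k : ℕ → ℕ) (hk : StrictMono k) (hk0 : 1 ≤ k 0)
    (C : ℝ) (b : ℕ → ℝ)
    (hb : ∀ j, μ {x : AddCircle (1 : ℝ) | 1 / 36 ≤ ‖k j • x‖} ≤ ENNReal.ofReal (C * b j)) :
    ¬ Summable (fun j : ℕ => (Real.log (k (j + 1))) ^ c * b j) := by
  intro hsummable
  obtain ⟨K, hK, hgrow⟩ := growth c hc
  have hge : ∀ j, j + 1 ≤ k j := by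
    intro j
    induction j with
    | zero => simpa using hk0
    | succ j ih =>
      have h1 : k j < k (j + 1) := hk (Nat.lt_succ_self j)
      omega
  have hl : ∀ j, (1 : ℝ) ≤ 4 * Real.log (k (j + 1)) := by
    intro j
    have h1 : (2 : ℝ) ≤ (k (j + 1) : ℝ) := by
      have := hge (j + 1)
      exact_mod_cast (by omega : 2 ≤ k (j + 1))
    have h4 := Real.log_le_log (by norm_num) h1
    have h5 := Real.log_two_gt_d9
    linarith
  have hmeas : ∀ j, μ {x | Real.exp (-(4 * Real.log (k (j + 1)))) ≤ ‖(k j) • x‖} ≤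
      ENNReal.ofReal (C * K * 4 ^ c * ((Real.log (k (j + 1))) ^ c * b j)) := by
    intro j
    have h1 := hgrow μ h2 h3 (k j : ℤ) (4 * Real.log (k (j + 1))) (hl j)
    simp only [natCast_zsmul] at h1
    have hl' := hl j
    have h4 : 0 ≤ K * (4 * Real.log (k (j + 1))) ^ c := by positivity
    refine h1.trans ((mul_le_mul' le_rfl (hb j)).trans (le_of_eq ?_))
    rw [← ENNReal.ofReal_mul h4, Real.mul_rpow (by norm_num) (by linarith)]
    congr 1
    ring
  have hsum : (∑' j, μ {x | Real.exp (-(4 * Real.log (k (j + 1)))) ≤ ‖(k j) • x‖}) ≠ ∞ := by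
    have hs : Summable (fun j : ℕ => C * K * 4 ^ c *
        ((Real.log (k (j + 1))) ^ c * b j)) := hsummable.mul_left _
    refine ne_top_of_le_ne_top ?_ (ENNReal.tsum_le_tsum hmeas)
    exact hs.tsum_ofReal_ne_top
  have hae := ae_eventually_notMem hsum
  have hcount : (Set.range (fun q : ℚ => (((q : ℝ)) : AddCircle (1 : ℝ)))).Countable :=
    Set.countable_range _
  have hNS : NullSingletonClass μ := ⟨hat⟩
  have hnull : μ (Set.range (fun q : ℚ => (((q : ℝ)) : AddCircle (1 : ℝ)))) = 0 :=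
    hcount.measure_zero μ
  have hae2 : ∀ᵐ x ∂μ, x ∉ Set.range (fun q : ℚ => (((q : ℝ)) : AddCircle (1 : ℝ))) :=
    measure_eq_zero_iff_ae_notMem.mp hnull
  have hfalse : ∀ᵐ x ∂μ, False := by
    filter_upwards [hae, hae2] with x hx hx2
    apply hx2
    obtain ⟨j0, hj0⟩ := Filter.eventually_atTop.mp hx
    obtain ⟨y, rfl⟩ := QuotientAddGroup.mk_surjective x
    have hy := dv_rat k hk hk0 y (fun j => round ((k j : ℝ) * y)) j0 (by
      intro j hj
      have h := hj0 j hj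
      replace h := not_le.mp h
      have hn : ‖(k j) • ((y : ℝ) : AddCircle (1 : ℝ))‖ = |(k j : ℝ) * y - round ((k j : ℝ) * y)| := by
        rw [← AddCircle.coe_nsmul, nsmul_eq_mul]
        exact UnitAddCircle.norm_eq
      rw [← hn]
      exact h)
    refine ⟨((round ((k j0 : ℝ) * y) : ℤ) : ℚ) / (k j0 : ℚ), ?_⟩
    show ((((((round ((k j0 : ℝ) * y) : ℤ) : ℚ) / (k j0 : ℚ) : ℚ)) : ℝ) : AddCircle (1 : ℝ))
      = ((y : ℝ) : AddCircle (1 : ℝ))
    congr 1
    push_cast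
    exact hy.symm
  have := hfalse
  rw [Filter.eventually_false_iff_eq_bot, ae_eq_bot] at this
  exact IsProbabilityMeasure.ne_zero μ this

/-- DIVERGENCE. -/
theorem div_sum (μ : Measure (AddCircle (1 : ℝ))) [IsProbabilityMeasure μ]
    (h2 : MeasurePreserving (fun x => (2 : ℕ) • x) μ μ)
    (h3 : MeasurePreserving (fun x => (3 : ℕ) • x) μ μ) (hat : ∀ x, μ {x} = 0)
    (c : ℝ) (hc : 0 < c) (k : ℕ → ℕ) (hk : StrictMono k) (hk0 : 1 ≤ k 0) :
    ¬ Summable (fun j : ℕ => (Real.log (k (j + 1))) ^ c * ∫ x, ‖k j • x‖ ∂μ) :=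
  div_gen μ h2 h3 hat c hc k hk hk0 36 (fun j => ∫ x, ‖k j • x‖ ∂μ)
    (fun j => dv_markov μ (k j))

/-- UNIFORM LOWER BOUND. -/
theorem low_all (μ : Measure (AddCircle (1 : ℝ))) [IsProbabilityMeasure μ]
    (h2 : MeasurePreserving (fun x => (2 : ℕ) • x) μ μ)
    (h3 : MeasurePreserving (fun x => (3 : ℕ) • x) μ μ) (hat : ∀ x, μ {x} = 0)
    (c M0 : ℝ) (hc : 0 < c) :
    ∃ M : ℝ, M0 ≤ M ∧ 1 ≤ M ∧ ∀ k : ℕ, 1 ≤ k → Real.log k ≤ M →
      M ^ (-c) ≤ ∫ x, ‖k • x‖ ∂μ := by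
  obtain ⟨N, hN0, hN1, hN⟩ := dim_main μ h2 h3 hat 2 c (by norm_num) hc (max M0 3)
  have hN3 : 3 ≤ N := (le_max_right _ _).trans hN0
  have hNM : M0 ≤ N := (le_max_left _ _).trans hN0
  have e2 : N ^ (2 : ℝ) = N * N := by rw [Real.rpow_two, sq]
  have hM : N ≤ N * N := by nlinarith
  rw [e2] at hN
  refine ⟨N * N, by linarith, by linarith, fun k hk hkM => ?_⟩
  rcases le_or_gt N (Real.log k) with h | h
  · refine le_trans ?_ (hN k h hkM)
    exact Real.rpow_le_rpow_of_nonpos (by linarith) hkM (by linarith)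
  · obtain ⟨i, hi1, hi2⟩ := DIM1_win N hN3 k (by omega) (by linarith)
    have h4 := hN (2 ^ i * k) hi1 (by nlinarith)
    rw [DIM1_inv μ h2 k i] at h4
    refine le_trans ?_ h4
    exact Real.rpow_le_rpow_of_nonpos (by linarith) (by nlinarith) (by linarith)

end Pool.Agent.SlowV
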