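import Pool.Agent.SlowV.Div

/-! The same in terms of Fourier coefficients.
Text: team-store MP_e27144_an_slowvar_helper50.md. -/

namespace Pool.Agent.SlowV

open Pool.Agent.SubT

open scoped BigOperators ENNReal ComplexConjugate

open MeasureTheory Set Filter Topology

private theorem fo_norm (k : ℤ) (x : AddCircle (1 : ℝ)) : ‖(fourier k x : ℂ)‖ = 1 := by
  rw [fourier_apply]
  exact Circle.norm_coe _

private theorem fo_sq (z u : ℂ) (hz : ‖z‖ = 1) (hu : ‖u‖ = 1) :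
    ‖z - u‖ ^ 2 = 2 - 2 * (z * conj u).re := by
  rw [← Complex.normSq_eq_norm_sq, Complex.normSq_sub, Complex.normSq_eq_norm_sq,
    Complex.normSq_eq_norm_sq, hz, hu]
  ring

private theorem fo_integrable (μ : Measure (AddCircle (1 : ℝ))) [IsProbabilityMeasure μ]
    {E : Type*} [NormedAddCommGroup E] (f : AddCircle (1 : ℝ) → E) (hf : Continuous f) :
    Integrable f μ :=
  hf.integrable_of_hasCompactSupport (HasCompactSupport.of_compactSpace f)

private theorem fo_int (μ : Measure (AddCircle (1 : ℝ))) [IsProbabilityMeasure μ]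
    (g : AddCircle (1 : ℝ) → ℂ) (hg : Continuous g) (hg1 : ∀ x, ‖g x‖ = 1) (u : ℂ)
    (hu : ‖u‖ = 1) : ∫ x, ‖g x - u‖ ^ 2 ∂μ = 2 - 2 * ((∫ x, g x ∂μ) * conj u).re := by
  have h1 : ∀ x, ‖g x - u‖ ^ 2 = 2 - 2 * (g x * conj u).re := fun x => fo_sq _ _ (hg1 x) hu
  have hi : Integrable (fun x => g x * conj u) μ :=
    fo_integrable μ _ (hg.mul continuous_const)
  have h2 : ∫ x, (g x * conj u).re ∂μ = ((∫ x, g x ∂μ) * conj u).re := by
    rw [← integral_mul_const]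
    exact integral_re hi
  have hire : Integrable (fun x => (g x * conj u).re) μ := hi.re
  simp only [h1]
  rw [integral_sub (integrable_const _) (hire.const_mul 2), integral_const_mul, h2]
  simp

/-- the distance on the circle -/
private theorem fo_dist (k : ℤ) (x : AddCircle (1 : ℝ)) :
    4 * ‖k • x‖ ≤ ‖(fourier k x : ℂ) - 1‖ := by
  obtain ⟨y, rfl⟩ := QuotientAddGroup.mk_surjective x
  change 4 * ‖k • ((y : ℝ) : AddCircle (1 : ℝ))‖ ≤
    ‖(fourier k ((y : ℝ) : AddCircle (1 : ℝ)) : ℂ) - 1‖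
  set r : ℝ := (k : ℝ) * y - round ((k : ℝ) * y) with hr
  have e1 : ‖k • ((y : ℝ) : AddCircle (1 : ℝ))‖ = |r| := by
    rw [← AddCircle.coe_zsmul, zsmul_eq_mul, UnitAddCircle.norm_eq]
  have hr2 : |r| ≤ 1 / 2 := abs_sub_round _
  have e2 : (fourier k ((y : ℝ) : AddCircle (1 : ℝ)) : ℂ) =
      Complex.exp (Complex.I * ((2 * Real.pi * r : ℝ) : ℂ)) := by
    rw [fourier_coe_apply]
    have e3 : (2 * (Real.pi : ℂ) * Complex.I * (k : ℂ) * (y : ℂ) / ((1 : ℝ) : ℂ)) =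
        Complex.I * ((2 * Real.pi * r : ℝ) : ℂ) +
          (round ((k : ℝ) * y) : ℂ) * (2 * (Real.pi : ℂ) * Complex.I) := by
      rw [hr]
      push_cast
      ring
    rw [e3, Complex.exp_add, Complex.exp_int_mul_two_pi_mul_I, mul_one]
  rw [e1, e2, Complex.norm_exp_I_mul_ofReal_sub_one, Real.norm_eq_abs, abs_mul]
  have e4 : 2 * Real.pi * r / 2 = Real.pi * r := by ring
  rw [e4]
  have h5 : |Real.pi * r| ≤ Real.pi / 2 := by
    rw [abs_mul, abs_of_pos Real.pi_pos]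
    have := Real.pi_pos
    nlinarith
  have h6 := Real.mul_abs_le_abs_sin h5
  rw [abs_mul, abs_of_pos Real.pi_pos] at h6
  have h7 : 2 / Real.pi * (Real.pi * |r|) = 2 * |r| := by
    field_simp
  rw [h7] at h6
  have h8 : |(2 : ℝ)| = 2 := abs_of_pos (by norm_num)
  rw [h8]
  linarith

private theorem fo_double (μ : Measure (AddCircle (1 : ℝ)))
    (h2 : MeasurePreserving (fun x => (2 : ℕ) • x) μ μ) (k : ℤ) :
    ∫ x, (fourier k x : ℂ) ^ 2 ∂μ = ∫ x, (fourier k x : ℂ) ∂μ := by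
  have hcont : Continuous (fun x : AddCircle (1 : ℝ) => (fourier k x : ℂ)) :=
    (fourier k).continuous
  have h := integral_map (μ := μ) (φ := fun x : AddCircle (1 : ℝ) => (2 : ℕ) • x)
    h2.measurable.aemeasurable
    (f := fun x : AddCircle (1 : ℝ) => (fourier k x : ℂ)) hcont.aestronglyMeasurable
  rw [h2.map_eq] at h
  rw [h]
  congr 1
  funext x
  rw [fourier_apply, fourier_apply, sq, ← Circle.coe_mul, ← AddCircle.toCircle_add]
  congr 2
  rw [two_nsmul, zsmul_add]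

/-- the integral inequality -/
theorem fo_main (μ : Measure (AddCircle (1 : ℝ))) [IsProbabilityMeasure μ]
    (h2 : MeasurePreserving (fun x => (2 : ℕ) • x) μ μ) (k : ℤ) :
    ∫ x, ‖(fourier k x : ℂ) - 1‖ ^ 2 ∂μ ≤ 44 * (1 - ‖∫ x, (fourier k x : ℂ) ∂μ‖) := by
  set m : ℂ := ∫ x, (fourier k x : ℂ) ∂μ with hm
  have hf : Continuous (fun x : AddCircle (1 : ℝ) => (fourier k x : ℂ)) := (fourier k).continuous
  have hf1 : ∀ x : AddCircle (1 : ℝ), ‖(fourier k x : ℂ)‖ = 1 := fo_norm k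
  obtain ⟨u, hu, hmu⟩ : ∃ u : ℂ, ‖u‖ = 1 ∧ (m * conj u).re = ‖m‖ := by
    rcases eq_or_ne m 0 with h0 | h0
    · exact ⟨1, norm_one, by rw [h0]; simp⟩
    · have hn : (‖m‖ : ℂ) ≠ 0 := by exact_mod_cast norm_ne_zero_iff.2 h0
      refine ⟨m / ‖m‖, ?_, ?_⟩
      · rw [norm_div, Complex.norm_real, norm_norm, div_self (norm_ne_zero_iff.2 h0)]
      · rw [map_div₀, Complex.conj_ofReal, mul_div_assoc', Complex.mul_conj,
          Complex.normSq_eq_norm_sq]
        have : ((‖m‖ ^ 2 : ℝ) : ℂ) / (‖m‖ : ℂ) = ((‖m‖ : ℝ) : ℂ) := by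
          push_cast
          field_simp
        rw [this, Complex.ofReal_re]
  have i1 : ∫ x, ‖(fourier k x : ℂ) - u‖ ^ 2 ∂μ = 2 - 2 * ‖m‖ := by
    rw [fo_int μ _ hf hf1 u hu, ← hm, hmu]
  have i2 : ∫ x, ‖(fourier k x : ℂ) ^ 2 - u‖ ^ 2 ∂μ = 2 - 2 * ‖m‖ := by
    rw [fo_int μ (fun x => (fourier k x : ℂ) ^ 2) (hf.pow 2)
      (fun x => by rw [norm_pow, hf1, one_pow]) u hu, fo_double μ h2 k, ← hm, hmu]
  have c1 : Integrable (fun x : AddCircle (1 : ℝ) => ‖(fourier k x : ℂ) - u‖ ^ 2) μ :=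
    fo_integrable μ _ ((hf.sub continuous_const).norm.pow 2)
  have c2 : Integrable (fun x : AddCircle (1 : ℝ) => ‖(fourier k x : ℂ) ^ 2 - u‖ ^ 2) μ :=
    fo_integrable μ _ (((hf.pow 2).sub continuous_const).norm.pow 2)
  have c3 : Integrable (fun x : AddCircle (1 : ℝ) => ‖(fourier k x : ℂ) - 1‖ ^ 2) μ :=
    fo_integrable μ _ ((hf.sub continuous_const).norm.pow 2)
  -- the shift
  have p1 : ∀ x : AddCircle (1 : ℝ), ‖u - 1‖ ^ 2 ≤
      8 * ‖(fourier k x : ℂ) - u‖ ^ 2 + 2 * ‖(fourier k x : ℂ) ^ 2 - u‖ ^ 2 := by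
    intro x
    set z : ℂ := (fourier k x : ℂ)
    have e1 : ‖u - 1‖ = ‖u ^ 2 - u‖ := by
      have : u ^ 2 - u = u * (u - 1) := by ring
      rw [this, norm_mul, hu, one_mul]
    have e2 : ‖u ^ 2 - u‖ ≤ ‖z ^ 2 - u ^ 2‖ + ‖z ^ 2 - u‖ := by
      have : u ^ 2 - u = -(z ^ 2 - u ^ 2) + (z ^ 2 - u) := by ring
      rw [this]
      refine (norm_add_le _ _).trans ?_
      rw [norm_neg]
    have e3 : ‖z ^ 2 - u ^ 2‖ ≤ 2 * ‖z - u‖ := by
      have : z ^ 2 - u ^ 2 = (z + u) * (z - u) := by ring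
      rw [this, norm_mul]
      refine mul_le_mul_of_nonneg_right ?_ (norm_nonneg _)
      refine (norm_add_le _ _).trans ?_
      rw [hf1 x, hu]
      norm_num
    have n1 := norm_nonneg (z - u)
    have n2 := norm_nonneg (z ^ 2 - u)
    have n3 : ‖u - 1‖ ≤ 2 * ‖z - u‖ + ‖z ^ 2 - u‖ := by linarith
    have n4 : ‖u - 1‖ ^ 2 ≤ (2 * ‖z - u‖ + ‖z ^ 2 - u‖) ^ 2 :=
      pow_le_pow_left₀ (norm_nonneg _) n3 2
    nlinarith [sq_nonneg (2 * ‖z - u‖ - ‖z ^ 2 - u‖)]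
  have q1 : ‖u - 1‖ ^ 2 ≤ 20 * (1 - ‖m‖) := by
    have h := integral_mono (μ := μ) (integrable_const (‖u - 1‖ ^ 2))
      ((c1.const_mul 8).add (c2.const_mul 2)) p1
    simp only [Pi.add_apply] at h
    rw [integral_add (c1.const_mul 8) (c2.const_mul 2), integral_const_mul, integral_const_mul,
      i1, i2] at h
    simp at h
    linarith
  have p2 : ∀ x : AddCircle (1 : ℝ), ‖(fourier k x : ℂ) - 1‖ ^ 2 ≤
      2 * ‖(fourier k x : ℂ) - u‖ ^ 2 + 2 * ‖u - 1‖ ^ 2 := by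
    intro x
    set z : ℂ := (fourier k x : ℂ)
    have e2 : ‖z - 1‖ ≤ ‖z - u‖ + ‖u - 1‖ := by
      have : z - 1 = (z - u) + (u - 1) := by ring
      rw [this]
      exact norm_add_le _ _
    have n4 : ‖z - 1‖ ^ 2 ≤ (‖z - u‖ + ‖u - 1‖) ^ 2 := pow_le_pow_left₀ (norm_nonneg _) e2 2
    nlinarith [sq_nonneg (‖z - u‖ - ‖u - 1‖)]
  have h := integral_mono (μ := μ) c3 ((c1.const_mul 2).add (integrable_const (2 * ‖u - 1‖ ^ 2))) p2
  simp only [Pi.add_apply] at h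
  have e : ∫ _x : AddCircle (1 : ℝ), 2 * ‖u - 1‖ ^ 2 ∂μ = 2 * ‖u - 1‖ ^ 2 := by simp
  rw [integral_add (c1.const_mul 2) (integrable_const _), integral_const_mul, i1, e] at h
  linarith

/-- Markov's inequality for the Fourier coefficients. -/
theorem fo_markov (μ : Measure (AddCircle (1 : ℝ))) [IsProbabilityMeasure μ]
    (h2 : MeasurePreserving (fun x => (2 : ℕ) • x) μ μ) (k : ℕ) :
    μ {x : AddCircle (1 : ℝ) | 1 / 36 ≤ ‖k • x‖} ≤
      ENNReal.ofReal (3564 * (1 - ‖∫ x, (fourier (k : ℤ) x : ℂ) ∂μ‖)) := by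
  have hf : Continuous (fun x : AddCircle (1 : ℝ) => (fourier (k : ℤ) x : ℂ)) :=
    (fourier (k : ℤ)).continuous
  have c3 : Integrable (fun x : AddCircle (1 : ℝ) => ‖(fourier (k : ℤ) x : ℂ) - 1‖ ^ 2) μ :=
    fo_integrable μ _ ((hf.sub continuous_const).norm.pow 2)
  have hmk := mul_meas_ge_le_integral_of_nonneg (μ := μ)
    (f := fun x : AddCircle (1 : ℝ) => ‖(fourier (k : ℤ) x : ℂ) - 1‖ ^ 2)
    (Filter.Eventually.of_forall fun x => by positivity) c3 (1 / 81)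
  have hsub : {x : AddCircle (1 : ℝ) | 1 / 36 ≤ ‖k • x‖} ⊆
      {x : AddCircle (1 : ℝ) | 1 / 81 ≤ ‖(fourier (k : ℤ) x : ℂ) - 1‖ ^ 2} := by
    intro x hx
    have hx' : 1 / 36 ≤ ‖k • x‖ := hx
    have h1 := fo_dist (k : ℤ) x
    rw [natCast_zsmul] at h1
    have h3 : (1 : ℝ) / 9 ≤ ‖(fourier (k : ℤ) x : ℂ) - 1‖ := by linarith
    have h4 : ((1 : ℝ) / 9) ^ 2 ≤ ‖(fourier (k : ℤ) x : ℂ) - 1‖ ^ 2 :=
      pow_le_pow_left₀ (by norm_num) h3 2
    change (1 : ℝ) / 81 ≤ ‖(fourier (k : ℤ) x : ℂ) - 1‖ ^ 2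
    norm_num at h4 ⊢
    linarith
  refine (measure_mono hsub).trans ?_
  rw [← ofReal_measureReal]
  refine ENNReal.ofReal_le_ofReal ?_
  have hmain := fo_main μ h2 (k : ℤ)
  linarith

theorem fo_le_one (μ : Measure (AddCircle (1 : ℝ))) [IsProbabilityMeasure μ] (k : ℤ) :
    ‖∫ x, (fourier k x : ℂ) ∂μ‖ ≤ 1 := by
  refine (norm_integral_le_integral_norm _).trans ?_
  simp only [fo_norm]
  simp

/-- DIVERGENCE, Fourier form. -/
theorem div_four (μ : Measure (AddCircle (1 : ℝ))) [IsProbabilityMeasure μ]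
    (h2 : MeasurePreserving (fun x => (2 : ℕ) • x) μ μ)
    (h3 : MeasurePreserving (fun x => (3 : ℕ) • x) μ μ) (hat : ∀ x, μ {x} = 0)
    (c : ℝ) (hc : 0 < c) (k : ℕ → ℕ) (hk : StrictMono k) (hk0 : 1 ≤ k 0) :
    ¬ Summable (fun j : ℕ => (Real.log (k (j + 1))) ^ c *
      (1 - ‖∫ x, (fourier (k j : ℤ) x : ℂ) ∂μ‖)) :=
  div_gen μ h2 h3 hat c hc k hk hk0 3564
    (fun j => 1 - ‖∫ x, (fourier (k j : ℤ) x : ℂ) ∂μ‖)
    (fun j => fo_markov μ h2 (k j))

theorem fo_pow (μ : Measure (AddCircle (1 : ℝ))) [IsProbabilityMeasure μ]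
    (h2 : MeasurePreserving (fun x => (2 : ℕ) • x) μ μ) (k i : ℕ) :
    ∫ x, (fourier ((2 ^ i * k : ℕ) : ℤ) x : ℂ) ∂μ = ∫ x, (fourier (k : ℤ) x : ℂ) ∂μ := by
  induction i with
  | zero => simp
  | succ i ih =>
    rw [← ih, ← fo_double μ h2 ((2 ^ i * k : ℕ) : ℤ)]
    congr 1
    funext x
    rw [fourier_apply, fourier_apply, sq, ← Circle.coe_mul, ← AddCircle.toCircle_add]
    congr 2
    rw [← add_zsmul]
    congr 1
    push_cast
    ring

theorem fo_neg (μ : Measure (AddCircle (1 : ℝ))) (k : ℤ) :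
    ‖∫ x, (fourier (-k) x : ℂ) ∂μ‖ = ‖∫ x, (fourier k x : ℂ) ∂μ‖ := by
  have : ∫ x, (fourier (-k) x : ℂ) ∂μ = conj (∫ x, (fourier k x : ℂ) ∂μ) := by
    rw [← integral_conj]
    congr 1
    funext x
    exact fourier_neg
  rw [this, Complex.norm_conj]

/-- UNIFORM BOUND for the Fourier coefficients. -/
theorem low_four (μ : Measure (AddCircle (1 : ℝ))) [IsProbabilityMeasure μ]
    (h2 : MeasurePreserving (fun x => (2 : ℕ) • x) μ μ)
    (h3 : MeasurePreserving (fun x => (3 : ℕ) • x) μ μ) (hat : ∀ x, μ {x} = 0)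
    (c M0 : ℝ) (hc : 0 < c) :
    ∃ M : ℝ, M0 ≤ M ∧ 1 ≤ M ∧ ∀ k : ℤ, k ≠ 0 → |(k : ℝ)| ≤ Real.exp M →
      ‖∫ x, (fourier k x : ℂ) ∂μ‖ ≤ 1 - M ^ (-c) := by
  by_contra hcon
  push Not at hcon
  set N0 : ℝ := max M0 3 with hN0
  have hN03 : 3 ≤ N0 := le_max_right _ _
  -- good multipliers at all scales
  have hg : ∀ N : ℝ, ∃ k : ℕ, N0 ≤ N → (N ≤ Real.log k ∧ Real.log k ≤ 3 * N ∧
      1 - ‖∫ x, (fourier (k : ℤ) x : ℂ) ∂μ‖ < N ^ (-c)) := by
    intro N
    by_cases hN : N0 ≤ N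
    · obtain ⟨k, hk0, hk1, hk2⟩ := hcon N ((le_max_left _ _).trans hN) (by linarith)
      have hka : k.natAbs ≠ 0 := Int.natAbs_ne_zero.2 hk0
      have e1 : ‖∫ x, (fourier ((k.natAbs : ℕ) : ℤ) x : ℂ) ∂μ‖ =
          ‖∫ x, (fourier k x : ℂ) ∂μ‖ := by
        rcases Int.natAbs_eq k with h | h
        · rw [← h]
        · conv_rhs => rw [h]
          rw [fo_neg]
      have e2 : Real.log (k.natAbs : ℝ) ≤ 3 * N := by
        have h4 : ((k.natAbs : ℕ) : ℝ) = |(k : ℝ)| := by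
          rw [Nat.cast_natAbs, Int.cast_abs]
        have h5 : 0 < |(k : ℝ)| := abs_pos.2 (by exact_mod_cast hk0)
        rw [h4]
        have h6 := Real.log_le_log h5 hk1
        rw [Real.log_exp] at h6
        linarith
      obtain ⟨i, hi1, hi2⟩ := DIM1_win N (by linarith) k.natAbs hka e2
      refine ⟨2 ^ i * k.natAbs, fun _ => ⟨hi1, hi2, ?_⟩⟩
      rw [fo_pow μ h2, e1]
      linarith
    · exact ⟨0, fun h => absurd h hN⟩
  choose K hK using hg
  set Nj : ℕ → ℝ := fun j => 4 ^ j * N0 with hNj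
  have h4 : ∀ j, N0 ≤ Nj j := fun j => by
    have : (1 : ℝ) ≤ 4 ^ j := one_le_pow₀ (by norm_num)
    change N0 ≤ 4 ^ j * N0
    nlinarith
  have h5 : ∀ j, Nj (j + 1) = 4 * Nj j := fun j => by
    change (4 : ℝ) ^ (j + 1) * N0 = 4 * (4 ^ j * N0)
    ring
  set k : ℕ → ℕ := fun j => K (Nj j) with hk
  have hk1 : ∀ j, Nj j ≤ Real.log (k j) := fun j => (hK (Nj j) (h4 j)).1
  have hk2 : ∀ j, Real.log (k j) ≤ 3 * Nj j := fun j => (hK (Nj j) (h4 j)).2.1
  have hk3 : ∀ j, 1 - ‖∫ x, (fourier (k j : ℤ) x : ℂ) ∂μ‖ < (Nj j) ^ (-c) :=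
    fun j => (hK (Nj j) (h4 j)).2.2
  have hpos : ∀ j, 0 < k j := fun j => by
    rcases Nat.eq_zero_or_pos (k j) with h0 | h0
    · exfalso
      have := hk1 j
      rw [h0] at this
      simp only [Nat.cast_zero, Real.log_zero] at this
      linarith [h4 j]
    · exact h0
  have hmono : StrictMono k := by
    refine strictMono_nat_of_lt_succ fun j => ?_
    have h6 : Real.log (k j) < Real.log (k (j + 1)) := by
      have := hk2 j
      have := hk1 (j + 1)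
      rw [h5] at this
      linarith [h4 j]
    have h7 : (k j : ℝ) < k (j + 1) := by
      have h8 := Real.exp_lt_exp.2 h6
      rwa [Real.exp_log (by exact_mod_cast hpos j), Real.exp_log (by exact_mod_cast hpos (j + 1))]
        at h8
    exact_mod_cast h7
  refine div_four μ h2 h3 hat (c / 2) (by positivity) k hmono (hpos 0) ?_
  have hr : Summable (fun j : ℕ => (12 : ℝ) ^ (c / 2) * ((4 : ℝ) ^ (-(c / 2))) ^ j) := by
    refine (summable_geometric_of_lt_one (by positivity) ?_).mul_left _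
    exact Real.rpow_lt_one_of_one_lt_of_neg (by norm_num) (by linarith)
  refine Summable.of_nonneg_of_le (fun j => ?_) (fun j => ?_) hr
  · have h6 : 0 ≤ Real.log (k (j + 1)) := by linarith [hk1 (j + 1), h4 (j + 1)]
    have h7 := fo_le_one μ (k j : ℤ)
    have h8 : 0 ≤ 1 - ‖∫ x, (fourier (k j : ℤ) x : ℂ) ∂μ‖ := by linarith
    positivity
  · have hNp : 0 < Nj j := by linarith [h4 j]
    have h6 : 0 ≤ Real.log (k (j + 1)) := by linarith [hk1 (j + 1), h4 (j + 1)]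
    have h7 : Real.log (k (j + 1)) ≤ 12 * Nj j := by
      have := hk2 (j + 1)
      rw [h5] at this
      linarith
    have h8 : (Real.log (k (j + 1))) ^ (c / 2) ≤ (12 * Nj j) ^ (c / 2) :=
      Real.rpow_le_rpow h6 h7 (by positivity)
    have h9 : 0 ≤ 1 - ‖∫ x, (fourier (k j : ℤ) x : ℂ) ∂μ‖ := by
      have := fo_le_one μ (k j : ℤ)
      linarith
    calc (Real.log (k (j + 1))) ^ (c / 2) * (1 - ‖∫ x, (fourier (k j : ℤ) x : ℂ) ∂μ‖)
        ≤ (12 * Nj j) ^ (c / 2) * (Nj j) ^ (-c) :=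
          mul_le_mul h8 (hk3 j).le h9 (by positivity)
      _ = 12 ^ (c / 2) * (Nj j) ^ (-(c / 2)) := by
          rw [Real.mul_rpow (by norm_num) hNp.le, mul_assoc, ← Real.rpow_add hNp]
          congr 2
          ring
      _ ≤ 12 ^ (c / 2) * ((4 : ℝ) ^ (-(c / 2))) ^ j := by
          refine mul_le_mul_of_nonneg_left ?_ (by positivity)
          have e : ((4 : ℝ) ^ (-(c / 2))) ^ j = ((4 : ℝ) ^ j) ^ (-(c / 2)) := by
            rw [← Real.rpow_natCast, ← Real.rpow_natCast, ← Real.rpow_mul (by norm_num),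
              ← Real.rpow_mul (by norm_num)]
            congr 1
            ring
          rw [e]
          refine Real.rpow_le_rpow_of_nonpos (by positivity) ?_ (by linarith)
          change (4 : ℝ) ^ j ≤ 4 ^ j * N0
          have : (0 : ℝ) < 4 ^ j := by positivity
          nlinarith

end Pool.Agent.SlowV
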