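import Pool.Agent.SlowV.Pw
import Pool.Agent.SubT.Growth1

/-! Integration of the pointwise theorem.
Text: team-store MP_e27144_an_slowvar_helper50.md, section 3. -/

namespace Pool.Agent.SlowV

open Pool.Agent.SubT

open scoped BigOperators ENNReal

open MeasureTheory

theorem in_norm (y : ℝ) : ‖((y : ℝ) : AddCircle (1 : ℝ))‖ = |y - round y| :=
  UnitAddCircle.norm_eq

theorem in_lt (y c : ℝ) : ‖((y : ℝ) : AddCircle (1 : ℝ))‖ < c ↔ ∃ z : ℤ, |y - z| < c := by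
  rw [in_norm]
  exact ⟨fun h => ⟨round y, h⟩, fun ⟨z, hz⟩ => (round_le y z).trans_lt hz⟩

theorem in_ge (y c : ℝ) : c ≤ ‖((y : ℝ) : AddCircle (1 : ℝ))‖ ↔ ∀ z : ℤ, c ≤ |y - z| := by
  rw [in_norm]
  exact ⟨fun h z => h.trans (round_le y z), fun h => h _⟩

theorem in_gt (y c : ℝ) : c < ‖((y : ℝ) : AddCircle (1 : ℝ))‖ ↔ ∀ z : ℤ, c < |y - z| := by
  rw [in_norm]
  exact ⟨fun h z => h.trans_le (round_le y z), fun h => h _⟩

/-- the shell of depth `(g, 2g]` -/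
def shell (g : ℝ) : Set (AddCircle (1 : ℝ)) :=
  {x | 1 / 36 * Real.exp (-(2 * g)) ≤ ‖x‖ ∧ ‖x‖ < 1 / 36 * Real.exp (-g)}

/-- the outside of depth `< δ` -/
def outs (δ : ℝ) : Set (AddCircle (1 : ℝ)) := {x | 1 / 36 * Real.exp (-δ) < ‖x‖}

theorem shell_meas (g : ℝ) : MeasurableSet (shell g) :=
  (isClosed_le continuous_const continuous_norm).measurableSet.inter
    (isOpen_lt continuous_norm continuous_const).measurableSet

theorem outs_meas (δ : ℝ) : MeasurableSet (outs δ) :=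
  (isOpen_lt continuous_const continuous_norm).measurableSet

theorem in_smul (y : ℝ) (p : ℕ × ℕ) : (2 ^ p.1 * 3 ^ p.2 : ℕ) • ((y : ℝ) : AddCircle (1 : ℝ)) =
    (((2 : ℝ) ^ p.1 * 3 ^ p.2 * y : ℝ) : AddCircle (1 : ℝ)) := by
  rw [← AddCircle.coe_nsmul, nsmul_eq_mul]
  push_cast
  rfl

/-- the pointwise theorem on the circle -/
theorem pw_circle (κ K L : ℝ) (hκ : 0 < κ) (hκ1 : κ ≤ 1 / 64) (hK : 1 ≤ K)
    (hL : 3 * (K + 2) ≤ L) :
    ∃ g0 : ℝ, 256 ≤ g0 ∧ ∀ g ≥ g0, ∀ x : AddCircle (1 : ℝ),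
      ∑ p ∈ KL_T (L * g - (K + 2) * g), (((fun y : AddCircle (1 : ℝ) =>
          (2 ^ p.1 * 3 ^ p.2 : ℕ) • y) ⁻¹' shell g).indicator (fun _ => (1 : ℝ≥0∞)) x) ≤
        ENNReal.ofReal (16 / L + 8 / K) * ∑ p ∈ KL_T (L * g),
          (((fun y : AddCircle (1 : ℝ) => (2 ^ p.1 * 3 ^ p.2 : ℕ) • y) ⁻¹'
            outs (κ * g)).indicator (fun _ => (1 : ℝ≥0∞)) x) := by
  classical
  obtain ⟨g0, hg0, h⟩ := pointwise κ K L hκ hκ1 hK hL
  refine ⟨g0, hg0, fun g hg x => ?_⟩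
  obtain ⟨y, rfl⟩ := QuotientAddGroup.mk_surjective x
  have hy := h g hg y
  have hsum : ∀ (S : Finset (ℕ × ℕ)) (T : Set (AddCircle (1 : ℝ))),
      (∑ p ∈ S, (((fun y : AddCircle (1 : ℝ) => (2 ^ p.1 * 3 ^ p.2 : ℕ) • y) ⁻¹' T).indicator
        (fun _ => (1 : ℝ≥0∞)) ((y : ℝ) : AddCircle (1 : ℝ)))) =
      ((S.filter (fun p => (2 ^ p.1 * 3 ^ p.2 : ℕ) • ((y : ℝ) : AddCircle (1 : ℝ)) ∈ T)).card :
        ℝ≥0∞) := by
    intro S T
    rw [Finset.card_filter]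
    push_cast
    refine Finset.sum_congr rfl fun p _ => ?_
    by_cases h : (2 ^ p.1 * 3 ^ p.2 : ℕ) • ((y : ℝ) : AddCircle (1 : ℝ)) ∈ T
    · rw [if_pos h, Set.indicator_of_mem (by exact h)]
    · rw [if_neg h, Set.indicator_of_notMem (by exact h)]
  change (∑ p ∈ KL_T (L * g - (K + 2) * g), (((fun y : AddCircle (1 : ℝ) =>
          (2 ^ p.1 * 3 ^ p.2 : ℕ) • y) ⁻¹' shell g).indicator (fun _ => (1 : ℝ≥0∞))
          ((y : ℝ) : AddCircle (1 : ℝ)))) ≤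
        ENNReal.ofReal (16 / L + 8 / K) * ∑ p ∈ KL_T (L * g),
          (((fun y : AddCircle (1 : ℝ) => (2 ^ p.1 * 3 ^ p.2 : ℕ) • y) ⁻¹'
            outs (κ * g)).indicator (fun _ => (1 : ℝ≥0∞)) ((y : ℝ) : AddCircle (1 : ℝ)))
  rw [hsum, hsum]
  have e1 : (KL_T (L * g - (K + 2) * g)).filter (fun p =>
      (2 ^ p.1 * 3 ^ p.2 : ℕ) • ((y : ℝ) : AddCircle (1 : ℝ)) ∈ shell g) =
      setA y g (L * g - (K + 2) * g) := by
    ext p
    rw [Finset.mem_filter, KL_mem_T, mem_setA, in_smul]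
    unfold shell
    rw [Set.mem_ofPred_eq, in_ge, in_lt]
    constructor
    · rintro ⟨h1, h2, h3⟩; exact ⟨h1, h3, h2⟩
    · rintro ⟨h1, h3, h2⟩; exact ⟨h1, h2, h3⟩
  have e2 : (KL_T (L * g)).filter (fun p =>
      (2 ^ p.1 * 3 ^ p.2 : ℕ) • ((y : ℝ) : AddCircle (1 : ℝ)) ∈ outs (κ * g)) =
      setE y (κ * g) (L * g) := by
    ext p
    rw [Finset.mem_filter, KL_mem_T, mem_setE, in_smul]
    unfold outs
    rw [Set.mem_ofPred_eq, in_gt]
  rw [e1, e2]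
  have hc : 0 ≤ 16 / L + 8 / K := by
    have : 0 < L := by linarith
    positivity
  rw [← ENNReal.ofReal_natCast, ← ENNReal.ofReal_natCast, ← ENNReal.ofReal_mul hc]
  exact ENNReal.ofReal_le_ofReal hy

/-- cardinalities of the windows -/
theorem win_card (K L g : ℝ) (hK : 1 ≤ K) (hL : 3 * (K + 2) ≤ L) (hg : 256 ≤ g) :
    ((KL_T (L * g)).card : ℝ) ≤ 4 * ((KL_T (L * g - (K + 2) * g)).card : ℝ) ∧
      0 < ((KL_T (L * g - (K + 2) * g)).card : ℝ) := by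
  have h0 : 9 * g ≤ L * g := mul_le_mul_of_nonneg_right (by linarith) (by linarith)
  have h1 : 3 * ((K + 2) * g) ≤ L * g := by
    have := mul_le_mul_of_nonneg_right hL (by linarith : (0 : ℝ) ≤ g)
    linarith
  set R := L * g with hR
  set u := (K + 2) * g with hu
  have h2 : 2 / 3 * R ≤ R - u := by linarith
  have h3 := cnt_le R (by linarith)
  have h4 := cnt_ge (R - u) (by linarith)
  have h5 : (2 / 3 * R) ^ 2 ≤ (R - u) ^ 2 := by
    apply pow_le_pow_left₀ (by linarith) h2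
  have h6 : (R + 2) ^ 2 ≤ 4 * (2 / 3 * R) ^ 2 := by nlinarith
  constructor
  · refine le_of_mul_le_mul_left ?_ om2_pos
    linarith
  · have h7 : 0 < (2 / 3 * R) ^ 2 := by
      have : 0 < R := by linarith
      positivity
    by_contra hcon
    have h8 : om2 * ((KL_T (R - u)).card : ℝ) ≤ 0 :=
      mul_nonpos_of_nonneg_of_nonpos om2_pos.le (not_lt.1 hcon)
    linarith

/-- ONE DYADIC RANGE with a small constant. -/
theorem range_step (δ κ : ℝ) (hδ : 0 < δ) (hκ : 0 < κ) (hκ1 : κ ≤ 1 / 64) :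
    ∃ g0 : ℝ, 256 ≤ g0 ∧ ∀ ν : Measure (AddCircle (1 : ℝ)),
      MeasurePreserving (fun x => (2 : ℕ) • x) ν ν → MeasurePreserving (fun x => (3 : ℕ) • x) ν ν →
      ∀ g ≥ g0, ν (shell g) ≤ ENNReal.ofReal δ * ν (outs (κ * g)) := by
  set K : ℝ := max 1 (64 / δ) with hK
  set L : ℝ := max (3 * (K + 2)) (128 / δ) with hL
  have hK1 : 1 ≤ K := le_max_left _ _
  have hK2 : 64 / δ ≤ K := le_max_right _ _
  have hL1 : 3 * (K + 2) ≤ L := le_max_left _ _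
  have hL2 : 128 / δ ≤ L := le_max_right _ _
  have hK0 : 0 < K := by linarith
  have hL0 : 0 < L := by linarith
  have hcδ : 4 * (16 / L + 8 / K) ≤ δ := by
    have h1 : 16 / L ≤ δ / 8 := by
      rw [div_le_iff₀ hL0]
      rw [div_le_iff₀ hδ] at hL2
      linarith
    have h2 : 8 / K ≤ δ / 8 := by
      rw [div_le_iff₀ hK0]
      rw [div_le_iff₀ hδ] at hK2
      linarith
    linarith
  obtain ⟨g0, hg0, h⟩ := pw_circle κ K L hκ hκ1 hK1 hL1
  refine ⟨g0, hg0, fun ν h2 h3 g hg => ?_⟩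
  have hg1 : 256 ≤ g := hg0.trans hg
  obtain ⟨hc1, hc2⟩ := win_card K L g hK1 hL1 hg1
  set W := KL_T (L * g - (K + 2) * g) with hW
  set V := KL_T (L * g) with hV
  have hcoef : 0 ≤ 16 / L + 8 / K := by positivity
  have hmeas : ∀ (T : Set (AddCircle (1 : ℝ))), MeasurableSet T → ∀ p : ℕ × ℕ,
      Measurable (((fun y : AddCircle (1 : ℝ) =>
        (2 ^ p.1 * 3 ^ p.2 : ℕ) • y) ⁻¹' T).indicator (fun _ => (1 : ℝ≥0∞))) := by
    intro T hT p
    exact measurable_const.indicator ((GR1_mp ν h2 h3 p.1 p.2).measurable hT)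
  have hint : ∀ (S : Finset (ℕ × ℕ)) (T : Set (AddCircle (1 : ℝ))), MeasurableSet T →
      ∫⁻ x, ∑ p ∈ S, (((fun y : AddCircle (1 : ℝ) =>
        (2 ^ p.1 * 3 ^ p.2 : ℕ) • y) ⁻¹' T).indicator (fun _ => (1 : ℝ≥0∞)) x) ∂ν =
      (S.card : ℝ≥0∞) * ν T := by
    intro S T hT
    rw [lintegral_finsetSum _ (fun p _ => hmeas T hT p)]
    have : ∀ p ∈ S, ∫⁻ x, (((fun y : AddCircle (1 : ℝ) =>
        (2 ^ p.1 * 3 ^ p.2 : ℕ) • y) ⁻¹' T).indicator (fun _ => (1 : ℝ≥0∞)) x) ∂ν = ν T := by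
      intro p _
      have hm := (GR1_mp ν h2 h3 p.1 p.2)
      rw [lintegral_indicator (hm.measurable hT), setLIntegral_const, one_mul,
        hm.measure_preimage hT.nullMeasurableSet]
    rw [Finset.sum_congr rfl this, Finset.sum_const, nsmul_eq_mul]
  have h1 : (W.card : ℝ≥0∞) * ν (shell g) ≤
      ENNReal.ofReal (16 / L + 8 / K) * ((V.card : ℝ≥0∞) * ν (outs (κ * g))) := by
    rw [← hint W _ (shell_meas g), ← hint V _ (outs_meas _)]
    rw [← lintegral_const_mul _ (Finset.measurable_sum _ (fun p _ => hmeas _ (outs_meas _) p))]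
    exact lintegral_mono (fun x => h g hg x)
  have h4 : (V.card : ℝ≥0∞) ≤ ENNReal.ofReal (4 * (W.card : ℝ)) := by
    rw [← ENNReal.ofReal_natCast]
    exact ENNReal.ofReal_le_ofReal hc1
  have h5 : (W.card : ℝ≥0∞) = ENNReal.ofReal (W.card : ℝ) := (ENNReal.ofReal_natCast _).symm
  have h6 : ENNReal.ofReal (W.card : ℝ) * ν (shell g) ≤
      ENNReal.ofReal (W.card : ℝ) * (ENNReal.ofReal δ * ν (outs (κ * g))) := by
    rw [← h5]
    refine h1.trans ?_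
    rw [← mul_assoc]
    refine (mul_le_mul' (mul_le_mul' le_rfl h4) le_rfl).trans ?_
    have e1 : ENNReal.ofReal (W.card : ℝ) * (ENNReal.ofReal δ * ν (outs (κ * g))) =
        ENNReal.ofReal ((W.card : ℝ) * δ) * ν (outs (κ * g)) := by
      rw [← mul_assoc, ← ENNReal.ofReal_mul hc2.le]
    rw [← ENNReal.ofReal_mul hcoef, h5, e1]
    refine mul_le_mul' (ENNReal.ofReal_le_ofReal ?_) le_rfl
    nlinarith
  have h7 : ENNReal.ofReal (W.card : ℝ) ≠ 0 := (ENNReal.ofReal_pos.2 hc2).ne'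
  exact (ENNReal.mul_le_mul_iff_right h7 ENNReal.ofReal_ne_top).1 h6

end Pool.Agent.SlowV
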