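import Pool.Agent.SubT.ProdPts

/-! Packing inequality in a window (from the product inequality of the Subspace theorem).
Text: team-store MP_e27144_an_slowvar_helper50.md, section 1. -/

namespace Pool.Agent.SlowV

open Pool.Agent.SubT

open scoped BigOperators

private theorem pack_logmax_le (v : Pl) (hv : v ≠ 0) (q : ℚ) :
    Real.log (max 1 (av v q)) ≤ Aq q := by
  have h1 : 0 ≤ Real.log (max 1 (av 1 q)) := Real.log_nonneg (le_max_left _ _)
  have h2 : 0 ≤ Real.log (max 1 (av 2 q)) := Real.log_nonneg (le_max_left _ _)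
  unfold Aq
  have hv' : v = 1 ∨ v = 2 := by
    fin_cases v
    · exact absurd rfl hv
    · exact Or.inl rfl
    · exact Or.inr rfl
  rcases hv' with h | h
  · rw [h]; linarith
  · rw [h]; linarith

/-- the core: a fixed enumeration -/
private theorem pack_core (r : ℕ) (η R : ℝ) (hR : 0 < R) (x : ℝ) (q : Fin (r + 1) → ℚ)
    (hinj : Function.Injective q) (hq : ∀ i, InR (q i)) (hA : ∀ i, Aq (q i) ≤ R)
    (c : Fin (r + 1) → ℝ) (hc : ∀ i, 0 ≤ c i ∧ c i ≤ R)
    (hxq : ∀ i, |x - (q i : ℝ)| ≤ 1 / 36 * Real.exp (-c i))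
    (hprod : (∀ i, InR (q i)) → Function.Injective q →
      (∀ v i j, i ≠ j → av v (q i - q j) ≤ (Real.exp R) ^ (4 : ℝ)) →
      ∀ mc : Pl → Fin (r + 1),
        -(η * Real.log (Real.exp R)) ≤
          ∑ v, ∑ i ∈ Finset.univ.erase (mc v), Real.log (av v (q i - q (mc v)))) :
    ∑ i, (c i - Aq (q i)) ≤ (1 + η) * R := by
  classical
  have hQ4 : (Real.exp R) ^ (4 : ℝ) = Real.exp (4 * R) := by
    rw [← Real.exp_mul, mul_comm]
  have hle1 : ∀ i, |x - (q i : ℝ)| ≤ 1 / 36 := fun i => by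
    refine (hxq i).trans ?_
    have h1 : Real.exp (-c i) ≤ 1 := Real.exp_le_one_iff.2 (by linarith [(hc i).1])
    linarith
  have hfin : ∀ v : Pl, v ≠ 0 → ∀ i, av v (q i) ≤ Real.exp (4 * R) := by
    intro v hv i
    have h1 := (pack_logmax_le v hv (q i)).trans (hA i)
    have h2 : av v (q i) ≤ max 1 (av v (q i)) := le_max_right _ _
    have h3 : 0 < max 1 (av v (q i)) := lt_of_lt_of_le one_pos (le_max_left _ _)
    have h4 : max 1 (av v (q i)) ≤ Real.exp R := by
      rw [← Real.log_le_iff_le_exp h3]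
      exact h1
    have h5 : Real.exp R ≤ Real.exp (4 * R) := Real.exp_le_exp.2 (by linarith)
    linarith
  have hreal : ∀ i j, av 0 (q i - q j) ≤ |x - (q i : ℝ)| + |x - (q j : ℝ)| := by
    intro i j
    rw [av_real]
    push_cast
    have : ((q i : ℝ) - (q j : ℝ)) = (x - (q j : ℝ)) - (x - (q i : ℝ)) := by ring
    rw [this]
    refine (abs_sub _ _).trans ?_
    linarith
  have hbd : ∀ v i j, i ≠ j → av v (q i - q j) ≤ (Real.exp R) ^ (4 : ℝ) := by
    intro v i j _
    rw [hQ4]
    by_cases hv : v = 0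
    · rw [hv]
      have h1 := hreal i j
      have h2 := hle1 i
      have h3 := hle1 j
      have h4 : 1 ≤ Real.exp (4 * R) := Real.one_le_exp (by linarith)
      linarith
    · rw [sub_eq_add_neg]
      refine (av_add_le_max hv _ _).trans ?_
      rw [av_neg]
      exact max_le (hfin v hv i) (hfin v hv j)
  have hne : (Finset.univ : Finset (Fin (r + 1))).Nonempty := ⟨0, Finset.mem_univ _⟩
  obtain ⟨m0, -, hm0⟩ := Finset.exists_max_image Finset.univ c hne
  obtain ⟨m1, -, hm1⟩ := Finset.exists_min_image Finset.univ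
    (fun i => Real.log (max 1 (av 1 (q i)))) hne
  obtain ⟨m2, -, hm2⟩ := Finset.exists_min_image Finset.univ
    (fun i => Real.log (max 1 (av 2 (q i)))) hne
  have hpos : ∀ (v : Pl) (i j : Fin (r + 1)), i ≠ j → 0 < av v (q i - q j) := by
    intro v i j hij
    exact av_pos v (sub_ne_zero.2 fun h => hij (hinj h))
  -- finite places
  have hf : ∀ (v : Pl), v ≠ 0 → ∀ m : Fin (r + 1),
      (∀ i, Real.log (max 1 (av v (q m))) ≤ Real.log (max 1 (av v (q i)))) →
      ∑ i ∈ Finset.univ.erase m, Real.log (av v (q i - q m)) ≤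
        ∑ i, Real.log (max 1 (av v (q i))) := by
    intro v hv m hm
    have h1 : ∑ i ∈ Finset.univ.erase m, Real.log (av v (q i - q m)) ≤
        ∑ i ∈ Finset.univ.erase m, Real.log (max 1 (av v (q i))) := by
      refine Finset.sum_le_sum fun i hi => ?_
      have hne : i ≠ m := Finset.ne_of_mem_erase hi
      refine Real.log_le_log (hpos v i m hne) ?_
      have hmi : max 1 (av v (q m)) ≤ max 1 (av v (q i)) := by
        have hp : ∀ j, 0 < max 1 (av v (q j)) := fun j =>
          lt_of_lt_of_le one_pos (le_max_left _ _)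
        exact (Real.log_le_log_iff (hp m) (hp i)).1 (hm i)
      have h2 : av v (q i - q m) ≤ max (av v (q i)) (av v (q m)) := by
        rw [sub_eq_add_neg]
        refine (av_add_le_max hv _ _).trans ?_
        rw [av_neg]
      refine h2.trans (max_le (le_max_right _ _) ?_)
      exact (le_max_right _ _).trans hmi
    refine h1.trans ?_
    refine Finset.sum_le_sum_of_subset_of_nonneg (Finset.erase_subset _ _) ?_
    intro i _ _
    exact Real.log_nonneg (le_max_left _ _)
  let mc : Pl → Fin (r + 1) := fun v => if v = 0 then m0 else if v = 1 then m1 else m2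
  have h1 := hprod hq hinj hbd mc
  rw [Real.log_exp, Fin.sum_univ_three] at h1
  have e0 : mc 0 = m0 := if_pos rfl
  have e1 : mc 1 = m1 := by
    change (if (1 : Pl) = 0 then m0 else if (1 : Pl) = 1 then m1 else m2) = m1
    rw [if_neg (by decide), if_pos rfl]
  have e2 : mc 2 = m2 := by
    change (if (2 : Pl) = 0 then m0 else if (2 : Pl) = 1 then m1 else m2) = m2
    rw [if_neg (by decide), if_neg (by decide)]
  rw [e0, e1, e2] at h1
  have hr1 : ∑ i ∈ Finset.univ.erase m0, Real.log (av 0 (q i - q m0)) ≤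
      ∑ i ∈ Finset.univ.erase m0, (-c i) := by
    refine Finset.sum_le_sum fun i hi => ?_
    have hne : i ≠ m0 := Finset.ne_of_mem_erase hi
    rw [Real.log_le_iff_le_exp (hpos 0 i m0 hne)]
    have h2 := hreal i m0
    have h3 := hxq i
    have h4 := hxq m0
    have h5 : Real.exp (-c m0) ≤ Real.exp (-c i) :=
      Real.exp_le_exp.2 (neg_le_neg (hm0 i (Finset.mem_univ i)))
    have h6 := Real.exp_pos (-c i)
    linarith
  have hr2 : ∑ i ∈ Finset.univ.erase m0, (-c i) = c m0 - ∑ i, c i := by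
    rw [Finset.sum_neg_distrib, ← Finset.add_sum_erase Finset.univ c (Finset.mem_univ m0)]
    ring
  have hf1 := hf 1 (by decide) m1 (fun i => hm1 i (Finset.mem_univ i))
  have hf2 := hf 2 (by decide) m2 (fun i => hm2 i (Finset.mem_univ i))
  have hAs : ∑ i, Aq (q i) = ∑ i, Real.log (max 1 (av 1 (q i))) +
      ∑ i, Real.log (max 1 (av 2 (q i))) := by
    rw [← Finset.sum_add_distrib]
    rfl
  have hcm := (hc m0).2
  rw [Finset.sum_sub_distrib]
  linarith

/-- PACKING: the total side of at most `m` triangles in a window of side `R` is at most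
`(1 + η) R`. -/
theorem packing (m : ℕ) (η : ℝ) (hη : 0 < η) :
    ∃ R0 : ℝ, 0 < R0 ∧ ∀ R ≥ R0, ∀ x : ℝ, ∀ QQ : Finset ℚ, QQ.card ≤ m →
      ∀ c : ℚ → ℝ, (∀ q ∈ QQ, InR q ∧ Aq q ≤ R ∧ 0 ≤ c q ∧ c q ≤ R ∧
        |x - (q : ℝ)| ≤ 1 / 36 * Real.exp (-c q)) →
        ∑ q ∈ QQ, (c q - Aq q) ≤ (1 + η) * R := by
  classical
  choose Q0 hQ1 hQ2 using fun r : ℕ => prod_pts r 4 η (by norm_num) hη
  refine ⟨1 + ∑ r ∈ Finset.range (m + 1), |Real.log (Q0 r)|, by positivity, ?_⟩
  intro R hRR x QQ hcard c hc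
  have hsn : 0 ≤ ∑ r ∈ Finset.range (m + 1), |Real.log (Q0 r)| :=
    Finset.sum_nonneg fun _ _ => abs_nonneg _
  have hR1 : 0 < R := by linarith
  rcases QQ.eq_empty_or_nonempty with rfl | hne
  · simp only [Finset.sum_empty]
    positivity
  obtain ⟨r, hr⟩ : ∃ r, QQ.card = r + 1 := by
    have := Finset.card_pos.2 hne
    exact ⟨QQ.card - 1, by omega⟩
  have hrm : r ∈ Finset.range (m + 1) := Finset.mem_range.2 (by omega)
  have hQle : Real.exp R ≥ Q0 r := by
    have h1 : |Real.log (Q0 r)| ≤ ∑ r ∈ Finset.range (m + 1), |Real.log (Q0 r)| :=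
      Finset.single_le_sum (f := fun r => |Real.log (Q0 r)|) (fun _ _ => abs_nonneg _) hrm
    have h2 : Real.log (Q0 r) ≤ R := by
      have := le_abs_self (Real.log (Q0 r))
      linarith
    have h3 : 0 < Q0 r := by linarith [hQ1 r]
    exact (Real.log_le_iff_le_exp h3).1 h2
  have hprod := hQ2 r (Real.exp R) hQle
  let e : Fin (r + 1) ≃ QQ :=
    (Fintype.equivFinOfCardEq (by rw [Fintype.card_coe]; exact hr)).symm
  have hcore := pack_core r η R hR1 x (fun i => (e i : ℚ))
    (fun a b hab => e.injective (Subtype.ext hab))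
    (fun i => (hc _ (e i).2).1) (fun i => (hc _ (e i).2).2.1)
    (fun i => c (e i : ℚ)) (fun i => ⟨(hc _ (e i).2).2.2.1, (hc _ (e i).2).2.2.2.1⟩)
    (fun i => (hc _ (e i).2).2.2.2.2) (hprod _)
  have hs : ∑ i, (c (e i : ℚ) - Aq (e i : ℚ)) = ∑ q ∈ QQ, (c q - Aq q) := by
    rw [e.sum_comp (fun p : QQ => c (p : ℚ) - Aq (p : ℚ))]
    exact Finset.sum_coe_sort QQ (fun p => c p - Aq p)
  rw [← hs]
  exact hcore

end Pool.Agent.SlowV
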