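import Pool.Agent.SlowV.Pack
import Pool.Agent.SlowV.Cnt
import Pool.Agent.SlowV.Arith

/-! The pointwise theorem.
Text: team-store MP_e27144_an_slowvar_helper50.md, section 2. -/

namespace Pool.Agent.SlowV

open Pool.Agent.SubT

open scoped BigOperators

/-- `p x` is within `exp (-δ) / 36` of an integer -/
def bd (x δ : ℝ) (p : ℕ × ℕ) : Prop :=
  ∃ z : ℤ, |(2 : ℝ) ^ p.1 * 3 ^ p.2 * x - z| ≤ 1 / 36 * Real.exp (-δ)

/-- the points of `W` of depth in `(g, 2g]` -/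
noncomputable def setA (x g τ : ℝ) : Finset (ℕ × ℕ) := by
  classical
  exact (KL_T τ).filter (fun p =>
    (∃ z : ℤ, |(2 : ℝ) ^ p.1 * 3 ^ p.2 * x - z| < 1 / 36 * Real.exp (-g)) ∧
    ∀ z : ℤ, 1 / 36 * Real.exp (-(2 * g)) ≤ |(2 : ℝ) ^ p.1 * 3 ^ p.2 * x - z|)

/-- the points of the window of depth `< δ` -/
noncomputable def setE (x δ τ : ℝ) : Finset (ℕ × ℕ) := by
  classical
  exact (KL_T τ).filter (fun p =>
    ∀ z : ℤ, 1 / 36 * Real.exp (-δ) < |(2 : ℝ) ^ p.1 * 3 ^ p.2 * x - z|)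

theorem mem_setA {x g τ : ℝ} {p : ℕ × ℕ} : p ∈ setA x g τ ↔ LL p.1 p.2 < τ ∧
    (∃ z : ℤ, |(2 : ℝ) ^ p.1 * 3 ^ p.2 * x - z| < 1 / 36 * Real.exp (-g)) ∧
    ∀ z : ℤ, 1 / 36 * Real.exp (-(2 * g)) ≤ |(2 : ℝ) ^ p.1 * 3 ^ p.2 * x - z| := by
  classical
  unfold setA
  rw [Finset.mem_filter, KL_mem_T]

theorem mem_setE {x δ τ : ℝ} {p : ℕ × ℕ} : p ∈ setE x δ τ ↔ LL p.1 p.2 < τ ∧
    ∀ z : ℤ, 1 / 36 * Real.exp (-δ) < |(2 : ℝ) ^ p.1 * 3 ^ p.2 * x - z| := by
  classical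
  unfold setE
  rw [Finset.mem_filter, KL_mem_T]

theorem not_bd {x δ : ℝ} {p : ℕ × ℕ} (h : ¬ bd x δ p) :
    ∀ z : ℤ, 1 / 36 * Real.exp (-δ) < |(2 : ℝ) ^ p.1 * 3 ^ p.2 * x - z| := by
  intro z
  by_contra hcon
  exact h ⟨z, not_lt.1 hcon⟩

/-- non strict lower bound for the truncated depth -/
theorem al_ge {x g y : ℝ} {q : ℚ} (h1 : y ≤ 2 * g)
    (h2 : Real.exp y * |x - (q : ℝ)| ≤ 1 / 36) : y ≤ KL_al x g q := by
  unfold KL_al
  split_ifs with h
  · exact h1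
  · refine le_min h1 ?_
    have hpos : 0 < |x - (q : ℝ)| := lt_of_le_of_ne (abs_nonneg _) (Ne.symm h)
    have h3 : 36 * |x - (q : ℝ)| ≤ Real.exp (-y) := by
      rw [Real.exp_neg, ← one_div, le_div_iff₀ (Real.exp_pos _)]
      linarith
    have h4 := Real.log_le_log (by positivity) h3
    rw [Real.log_exp] at h4
    linarith

/-- upper bound for the truncated depth -/
theorem al_le {x g y : ℝ} {q : ℚ} (h2 : 1 / 36 ≤ Real.exp y * |x - (q : ℝ)|) :
    KL_al x g q ≤ y := by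
  unfold KL_al
  split_ifs with h
  · rw [h, mul_zero] at h2
    norm_num at h2
  · refine (min_le_right _ _).trans ?_
    have hpos : 0 < |x - (q : ℝ)| := lt_of_le_of_ne (abs_nonneg _) (Ne.symm h)
    have h3 : Real.exp (-y) ≤ 36 * |x - (q : ℝ)| := by
      rw [Real.exp_neg, ← one_div, div_le_iff₀ (Real.exp_pos _)]
      linarith
    have h4 := Real.log_le_log (Real.exp_pos _) h3
    rw [Real.log_exp] at h4
    linarith

theorem aq_nonneg (q : ℚ) : 0 ≤ Aq q := by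
  have h1 : 0 ≤ Real.log (max 1 (av 1 q)) := Real.log_nonneg (le_max_left _ _)
  have h2 : 0 ≤ Real.log (max 1 (av 2 q)) := Real.log_nonneg (le_max_left _ _)
  unfold Aq
  linarith

/-- the facts about the point `q = q(p)` of a point `p` of depth at least `δ > 0` -/
theorem pw_facts {x δ R : ℝ} (hδ : 0 < δ) {p : ℕ × ℕ} (hp : bd x δ p)
    (hpR : LL p.1 p.2 + δ ≤ R) :
    InR (KL_q x p) ∧ Aq (KL_q x p) ≤ LL p.1 p.2 ∧
      LL p.1 p.2 + δ ≤ KL_al x (R / 2) (KL_q x p) ∧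
      (∃ z : ℤ, (2 : ℚ) ^ p.1 * 3 ^ p.2 * KL_q x p = (z : ℚ)) := by
  have hb : KL_bad x 1 δ p := by
    obtain ⟨z, hz⟩ := hp
    exact ⟨z, by rw [one_mul]; exact hz⟩
  have hn := KL_near (by linarith) hb
  have hR := hn.inR
  obtain ⟨a0, b0, hab, hL⟩ := exists_corner (KL_q x p) hR
  have hle := (hab p.1 p.2).1 hn.1
  refine ⟨hR, ?_, ?_, hn.1⟩
  · rw [← hL]; exact KL_LL_mono hle.1 hle.2
  · refine al_ge (by linarith) ?_
    have h1 := KL_q_dist hb
    rw [one_mul] at h1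
    rw [Real.exp_add, KL_exp_LL]
    calc (2 : ℝ) ^ p.1 * 3 ^ p.2 * Real.exp δ * |x - (KL_q x p : ℝ)|
        = Real.exp δ * ((2 : ℝ) ^ p.1 * 3 ^ p.2 * |x - (KL_q x p : ℝ)|) := by ring
      _ ≤ Real.exp δ * (1 / 36 * Real.exp (-δ)) :=
          mul_le_mul_of_nonneg_left h1 (Real.exp_pos _).le
      _ = 1 / 36 * (Real.exp δ * Real.exp (-δ)) := by ring
      _ = 1 / 36 := by rw [← Real.exp_add, add_neg_cancel, Real.exp_zero, mul_one]

/-- the translation to the corner is injective -/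
theorem pw_inj {x : ℝ} {q : ℚ} (hR : InR q) (S T : Finset (ℕ × ℕ))
    (hS : ∀ p ∈ S, (∃ z : ℤ, (2 : ℚ) ^ p.1 * 3 ^ p.2 * q = (z : ℚ)))
    (hT : ∀ p ∈ S, ∀ c : ℕ × ℕ, LL c.1 c.2 = LL p.1 p.2 - Aq q → c ∈ T) :
    S.card ≤ T.card := by
  have _ := x
  obtain ⟨a0, b0, hab, hL⟩ := exists_corner q hR
  refine Finset.card_le_card_of_injOn (fun p => (p.1 - a0, p.2 - b0)) ?_ ?_
  · intro p hp
    have hle := (hab p.1 p.2).1 (hS p hp)
    refine hT p hp _ ?_
    have := KL_LL_add a0 b0 (p.1 - a0) (p.2 - b0)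
    rw [Nat.add_sub_cancel' hle.1, Nat.add_sub_cancel' hle.2] at this
    simp only
    rw [this, hL]; ring
  · intro p hp p' hp' e
    have l1 := (hab p.1 p.2).1 (hS p hp)
    have l2 := (hab p'.1 p'.2).1 (hS p' hp')
    simp only [Prod.mk.injEq] at e
    exact Prod.ext (by omega) (by omega)

/-- THE POINTWISE THEOREM, real form. -/
theorem pointwise (κ K L : ℝ) (hκ : 0 < κ) (hκ1 : κ ≤ 1 / 64) (hK : 1 ≤ K)
    (hL : 3 * (K + 2) ≤ L) :
    ∃ g0 : ℝ, 256 ≤ g0 ∧ ∀ g ≥ g0, ∀ x : ℝ,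
      ((setA x g (L * g - (K + 2) * g)).card : ℝ) ≤
        (16 / L + 8 / K) * ((setE x (κ * g) (L * g)).card : ℝ) := by
  classical
  have hL9 : 9 ≤ L := by linarith
  set m : ℕ := ⌊2 * L / κ⌋₊ + 1 with hm
  have hm1 : 2 * L / κ < (m : ℝ) := by
    rw [hm]; push_cast; exact Nat.lt_floor_add_one _
  set η : ℝ := 1 / (8 * L) with hη
  have hη0 : 0 < η := by positivity
  have hη1 : η ≤ 1 := by
    rw [hη, div_le_one (by positivity)]; linarith
  have hηL : η * L = 1 / 8 := by rw [hη]; field_simp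
  obtain ⟨R0, hR0, hpack⟩ := packing m η hη0
  refine ⟨max 256 (max R0 (64 * m)), le_max_left _ _, ?_⟩
  intro g hg x
  have hg1 : (256 : ℝ) ≤ g := (le_max_left _ _).trans hg
  have hg2 : R0 ≤ g := (le_max_left _ _).trans ((le_max_right _ _).trans hg)
  have hg3 : 64 * (m : ℝ) ≤ g := (le_max_right _ _).trans ((le_max_right _ _).trans hg)
  set R : ℝ := L * g with hR
  have hgR : 9 * g ≤ R := by rw [hR]; nlinarith
  have hRR0 : R ≥ R0 := by linarith
  have hκg : 0 < κ * g := by positivity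
  have hκg1 : κ * g ≤ g := by nlinarith
  have hKg : g ≤ K * g := by nlinarith
  -- the finite sets
  set V' := KL_T (R - κ * g) with hV'
  set QQ := (V'.filter (fun p => bd x (κ * g) p)).image (KL_q x) with hQQ
  set t : ℚ → ℝ := fun q => KL_al x (R / 2) q - Aq q with ht
  have hal_le : ∀ q, KL_al x (R / 2) q ≤ R := fun q => by
    have := KL_al_le x (R / 2) q
    linarith
  have hfac : ∀ p, LL p.1 p.2 < R - κ * g → bd x (κ * g) p →
      InR (KL_q x p) ∧ Aq (KL_q x p) ≤ LL p.1 p.2 ∧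
      LL p.1 p.2 + κ * g ≤ KL_al x (R / 2) (KL_q x p) ∧
      (∃ z : ℤ, (2 : ℚ) ^ p.1 * 3 ^ p.2 * KL_q x p = (z : ℚ)) := fun p h1 h2 =>
    pw_facts hκg h2 (by linarith)
  have hQ : ∀ q ∈ QQ, InR q ∧ Aq q ≤ R ∧ κ * g ≤ t q ∧ 0 ≤ KL_al x (R / 2) q := by
    intro q hq
    rw [hQQ, Finset.mem_image] at hq
    obtain ⟨p, hp, rfl⟩ := hq
    rw [Finset.mem_filter, hV', KL_mem_T] at hp
    obtain ⟨f1, f2, f3, -⟩ := hfac p hp.1 hp.2
    have h0 := aq_nonneg (KL_q x p)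
    refine ⟨f1, by linarith [hp.1], ?_, by linarith⟩
    change κ * g ≤ KL_al x (R / 2) (KL_q x p) - Aq (KL_q x p)
    linarith
  have hpk : ∀ Q' : Finset ℚ, Q' ⊆ QQ → Q'.card ≤ m → ∑ q ∈ Q', t q ≤ (1 + η) * R := by
    intro Q' hsub hc
    refine hpack R hRR0 x Q' hc (KL_al x (R / 2)) ?_
    intro q hq
    obtain ⟨f1, f2, f3, f4⟩ := hQ q (hsub hq)
    exact ⟨f1, f2, f4, hal_le q, KL_al_dist x (R / 2) q⟩
  have hcard : QQ.card ≤ m := by
    by_contra hcon
    obtain ⟨Q', hsub, hc⟩ := Finset.exists_subset_card_eq (not_le.1 hcon).le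
    have h1 := hpk Q' hsub hc.le
    have h2 : (m : ℝ) * (κ * g) ≤ ∑ q ∈ Q', t q := by
      rw [← hc, ← nsmul_eq_mul]
      exact Finset.card_nsmul_le_sum _ _ _ fun q hq => (hQ q (hsub hq)).2.2.1
    have h3 : (1 + η) * R ≤ 2 * R := mul_le_mul_of_nonneg_right (by linarith) (by linarith)
    have h4 : 2 * L < m * κ := by rwa [div_lt_iff₀ hκ] at hm1
    have h5 : 2 * L * g < m * κ * g := mul_lt_mul_of_pos_right h4 (by linarith)
    rw [hR] at h3
    nlinarith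
  have hsum := hpk QQ (Finset.Subset.refl _) hcard
  -- numbers
  set A := setA x g (R - (K + 2) * g) with hA
  set E := setE x (κ * g) R with hE
  have hAfac : ∀ p ∈ A, KL_q x p ∈ QQ ∧ LL p.1 p.2 + g < KL_al x (R / 2) (KL_q x p) ∧
      KL_al x (R / 2) (KL_q x p) ≤ LL p.1 p.2 + 2 * g ∧ LL p.1 p.2 < R - (K + 2) * g ∧
      Aq (KL_q x p) ≤ LL p.1 p.2 ∧ (∃ z : ℤ, (2 : ℚ) ^ p.1 * 3 ^ p.2 * KL_q x p = (z : ℚ)) := by
    intro p hp
    rw [hA, mem_setA] at hp
    obtain ⟨h1, ⟨z, hz⟩, h3⟩ := hp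
    have hb : bd x (κ * g) p := by
      refine ⟨z, hz.le.trans ?_⟩
      have : Real.exp (-g) ≤ Real.exp (-(κ * g)) := Real.exp_le_exp.2 (by linarith)
      linarith
    have hpV : LL p.1 p.2 < R - κ * g := by linarith
    obtain ⟨f1, f2, f3, f4⟩ := hfac p hpV hb
    refine ⟨?_, ?_, ?_, h1, f2, f4⟩
    · rw [hQQ, Finset.mem_image]
      refine ⟨p, ?_, rfl⟩
      rw [Finset.mem_filter, hV', KL_mem_T]
      exact ⟨hpV, hb⟩
    · refine KL_lt_al (by linarith) ?_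
      have e : (2 : ℝ) ^ p.1 * 3 ^ p.2 * |x - (KL_q x p : ℝ)| =
          |(2 : ℝ) ^ p.1 * 3 ^ p.2 * x - round ((2 : ℝ) ^ p.1 * 3 ^ p.2 * x)| := by
        have hpos : (0 : ℝ) < (2 : ℝ) ^ p.1 * 3 ^ p.2 := by positivity
        rw [← abs_of_pos hpos, ← abs_mul, abs_of_pos hpos]
        congr 1
        unfold KL_q
        push_cast
        field_simp
      rw [Real.exp_add, KL_exp_LL]
      have h4 : (2 : ℝ) ^ p.1 * 3 ^ p.2 * |x - (KL_q x p : ℝ)| < 1 / 36 * Real.exp (-g) := by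
        rw [e]
        exact (round_le _ z).trans_lt hz
      calc (2 : ℝ) ^ p.1 * 3 ^ p.2 * Real.exp g * |x - (KL_q x p : ℝ)|
          = Real.exp g * ((2 : ℝ) ^ p.1 * 3 ^ p.2 * |x - (KL_q x p : ℝ)|) := by ring
        _ < Real.exp g * (1 / 36 * Real.exp (-g)) :=
            mul_lt_mul_of_pos_left h4 (Real.exp_pos _)
        _ = 1 / 36 * (Real.exp g * Real.exp (-g)) := by ring
        _ = 1 / 36 := by rw [← Real.exp_add, add_neg_cancel, Real.exp_zero, mul_one]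
    · refine al_le ?_
      obtain ⟨z', hz'⟩ := f4
      have hz1 : (2 : ℝ) ^ p.1 * 3 ^ p.2 * (KL_q x p : ℝ) = z' := by exact_mod_cast hz'
      have hpos : (0 : ℝ) < (2 : ℝ) ^ p.1 * 3 ^ p.2 := by positivity
      have h4 : 1 / 36 * Real.exp (-(2 * g)) ≤ (2 : ℝ) ^ p.1 * 3 ^ p.2 * |x - (KL_q x p : ℝ)| := by
        have h5 := h3 z'
        rw [← hz1, ← mul_sub, abs_mul, abs_of_pos hpos] at h5
        exact h5
      rw [Real.exp_add, KL_exp_LL]
      calc (1 : ℝ) / 36 = 1 / 36 * (Real.exp (2 * g) * Real.exp (-(2 * g))) := by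
            rw [← Real.exp_add, add_neg_cancel, Real.exp_zero, mul_one]
        _ = Real.exp (2 * g) * (1 / 36 * Real.exp (-(2 * g))) := by ring
        _ ≤ Real.exp (2 * g) * ((2 : ℝ) ^ p.1 * 3 ^ p.2 * |x - (KL_q x p : ℝ)|) :=
            mul_le_mul_of_nonneg_left h4 (Real.exp_pos _).le
        _ = (2 : ℝ) ^ p.1 * 3 ^ p.2 * Real.exp (2 * g) * |x - (KL_q x p : ℝ)| := by ring
  set n : ℚ → ℝ := fun q => ((A.filter (fun p => KL_q x p = q)).card : ℝ) with hn
  have hsumA : ((A.card : ℕ) : ℝ) = ∑ q ∈ QQ, n q := by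
    rw [hn]
    rw [← Nat.cast_sum]
    congr 1
    exact Finset.card_eq_sum_card_fiberwise (fun p hp => (hAfac p hp).1)
  have hn0 : ∀ q ∈ QQ, n q = 0 ∨ (g < t q ∧ t q < R - K * g) := by
    intro q _
    rcases (A.filter (fun p => KL_q x p = q)).eq_empty_or_nonempty with h | ⟨p, hp⟩
    · left
      change (((A.filter (fun p => KL_q x p = q)).card : ℕ) : ℝ) = 0
      rw [h]; simp
    · right
      rw [Finset.mem_filter] at hp
      obtain ⟨hpA, rfl⟩ := hp
      obtain ⟨-, f2, f3, f4, f5, -⟩ := hAfac p hpA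
      have h0 := aq_nonneg (KL_q x p)
      change g < KL_al x (R / 2) (KL_q x p) - Aq (KL_q x p) ∧
        KL_al x (R / 2) (KL_q x p) - Aq (KL_q x p) < R - K * g
      constructor <;> linarith
  have hnq : ∀ q ∈ QQ, om2 * n q ≤ 2 * (g + 2) * t q := by
    intro q hq
    have htq : 0 ≤ t q := by linarith [(hQ q hq).2.2.1]
    rcases hn0 q hq with h | ⟨h1, -⟩
    · rw [h, mul_zero]; positivity
    · have hc : (A.filter (fun p => KL_q x p = q)).card ≤
          (KL_T (t q - g) \ KL_T (t q - g - g)).card := by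
        refine pw_inj (x := x) (q := q) (hQ q hq).1 _ _ ?_ ?_
        · intro p hp
          rw [Finset.mem_filter] at hp
          obtain ⟨hpA, rfl⟩ := hp
          exact (hAfac p hpA).2.2.2.2.2
        · intro p hp c hc
          rw [Finset.mem_filter] at hp
          obtain ⟨hpA, rfl⟩ := hp
          obtain ⟨-, f2, f3, f4, f5, -⟩ := hAfac p hpA
          rw [Finset.mem_sdiff, KL_mem_T, KL_mem_T, hc, not_lt]
          change LL p.1 p.2 - Aq (KL_q x p) <
              KL_al x (R / 2) (KL_q x p) - Aq (KL_q x p) - g ∧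
            KL_al x (R / 2) (KL_q x p) - Aq (KL_q x p) - g - g ≤ LL p.1 p.2 - Aq (KL_q x p)
          constructor <;> linarith
      have hs := cnt_strip (t q - g) g (by linarith) (by linarith)
      have e : t q - g + g = t q := by ring
      rw [e] at hs
      refine le_trans ?_ hs
      refine mul_le_mul_of_nonneg_left ?_ om2_pos.le
      change (((A.filter (fun p => KL_q x p = q)).card : ℕ) : ℝ) ≤ _
      exact_mod_cast hc
  -- the dust
  have hEE : (R - κ * g) ^ 2 - ∑ q ∈ QQ, (t q + 2) ^ 2 ≤ om2 * ((E.card : ℕ) : ℝ) := by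
    have h1 : V' ⊆ E ∪ (V'.filter (fun p => bd x (κ * g) p)) := by
      intro p hp
      rw [Finset.mem_union]
      by_cases hb : bd x (κ * g) p
      · right; exact Finset.mem_filter.2 ⟨hp, hb⟩
      · left
        rw [hV', KL_mem_T] at hp
        rw [hE, mem_setE]
        exact ⟨by linarith, not_bd hb⟩
    have h2 : (V'.card : ℝ) ≤ (E.card : ℝ) +
        ((V'.filter (fun p => bd x (κ * g) p)).card : ℝ) := by
      exact_mod_cast (Finset.card_le_card h1).trans (Finset.card_union_le _ _)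
    have h3 : ((V'.filter (fun p => bd x (κ * g) p)).card : ℝ) ≤
        ∑ q ∈ QQ, ((KL_T (t q)).card : ℝ) := by
      have e : (V'.filter (fun p => bd x (κ * g) p)).card = ∑ q ∈ QQ,
          ((V'.filter (fun p => bd x (κ * g) p)).filter (fun p => KL_q x p = q)).card :=
        Finset.card_eq_sum_card_fiberwise (fun p hp => Finset.mem_image_of_mem _ hp)
      rw [e, Nat.cast_sum]
      refine Finset.sum_le_sum fun q hq => ?_
      have hc : ((V'.filter (fun p => bd x (κ * g) p)).filter (fun p => KL_q x p = q)).card ≤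
          (KL_T (t q)).card := by
        refine pw_inj (x := x) (q := q) (hQ q hq).1 _ _ ?_ ?_
        · intro p hp
          rw [Finset.mem_filter, Finset.mem_filter, hV', KL_mem_T] at hp
          obtain ⟨⟨hp1, hp2⟩, rfl⟩ := hp
          exact (hfac p hp1 hp2).2.2.2
        · intro p hp c hc
          rw [Finset.mem_filter, Finset.mem_filter, hV', KL_mem_T] at hp
          obtain ⟨⟨hp1, hp2⟩, rfl⟩ := hp
          obtain ⟨-, f2, f3, -⟩ := hfac p hp1 hp2
          rw [KL_mem_T, hc]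
          change LL p.1 p.2 - Aq (KL_q x p) <
            KL_al x (R / 2) (KL_q x p) - Aq (KL_q x p)
          linarith
      exact_mod_cast hc
    have h4 : om2 * ∑ q ∈ QQ, ((KL_T (t q)).card : ℝ) ≤ ∑ q ∈ QQ, (t q + 2) ^ 2 := by
      rw [Finset.mul_sum]
      refine Finset.sum_le_sum fun q hq => cnt_le (t q) ?_
      linarith [(hQ q hq).2.2.1]
    have h5 : (R - κ * g) ^ 2 ≤ om2 * (V'.card : ℝ) := cnt_ge (R - κ * g) (by linarith)
    have h6 : om2 * (V'.card : ℝ) ≤ om2 * ((E.card : ℝ) +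
        ∑ q ∈ QQ, ((KL_T (t q)).card : ℝ)) :=
      mul_le_mul_of_nonneg_left (by linarith) om2_pos.le
    rw [mul_add] at h6
    linarith
  rw [hsumA]
  refine arith QQ t n om2 _ κ K L g R η m om2_pos (Nat.cast_nonneg _) hκ1 hK hL hg1 hR
    hη0.le hη1 ?_ (by exact_mod_cast hcard) ?_ ?_ ?_ hsum hnq hn0 hEE
  · rw [hR, ← mul_assoc, hηL]; linarith
  · nlinarith
  · intro q hq
    linarith [(hQ q hq).2.2.1]
  · intro q _
    have h1 := hal_le q
    have h2 := aq_nonneg q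
    change KL_al x (R / 2) q - Aq q ≤ R
    linarith

end Pool.Agent.SlowV
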