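import Pool.Agent.SlowV.Int
import Pool.Agent.SubT.Growth

/-! Uniform slow variation.
Text: team-store MP_e27144_an_slowvar_helper50.md, section 3. -/

namespace Pool.Agent.SlowV

open Pool.Agent.SubT

open scoped BigOperators ENNReal

open MeasureTheory Set

/-- the dyadic covering -/
private theorem sl_cover (G : ℝ) (k : ℕ) :
    {x : AddCircle (1 : ℝ) | 1 / 36 * Real.exp (-(G * 2 ^ k)) ≤ ‖x‖} ⊆
      {x | 1 / 36 * Real.exp (-G) ≤ ‖x‖} ∪ ⋃ j ∈ Finset.range k, shell (G * 2 ^ j) := by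
  induction k with
  | zero =>
    intro x hx
    left
    simpa using hx
  | succ k ih =>
    intro x hx
    have hx' : 1 / 36 * Real.exp (-(G * 2 ^ (k + 1))) ≤ ‖x‖ := hx
    by_cases h : 1 / 36 * Real.exp (-(G * 2 ^ k)) ≤ ‖x‖
    · rcases ih h with h1 | h1
      · exact Or.inl h1
      · right
        simp only [mem_iUnion, Finset.mem_range] at h1 ⊢
        obtain ⟨j, hj, h2⟩ := h1
        exact ⟨j, by omega, h2⟩
    · right
      simp only [mem_iUnion, Finset.mem_range]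
      refine ⟨k, by omega, ?_, not_le.1 h⟩
      have e : 2 * (G * 2 ^ k) = G * 2 ^ (k + 1) := by ring
      rw [e]
      exact hx'

/-- slow variation for `q = 1`, in the form of differences -/
theorem slow_diff (A δ : ℝ) (hA : 1 ≤ A) (hδ : 0 < δ) :
    ∃ s0 : ℝ, 1 ≤ s0 ∧ ∀ ν : Measure (AddCircle (1 : ℝ)),
      MeasurePreserving (fun x => (2 : ℕ) • x) ν ν → MeasurePreserving (fun x => (3 : ℕ) • x) ν ν →
      ∀ s ≥ s0, ν {x | Real.exp (-(A * s)) ≤ ‖x‖ ∧ ‖x‖ < Real.exp (-s)} ≤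
        ENNReal.ofReal δ * ν {x | Real.exp (-s) ≤ ‖x‖} := by
  obtain ⟨J, hJ⟩ : ∃ J : ℕ, 2 * A ≤ (2 : ℝ) ^ J := by
    obtain ⟨n, hn⟩ := pow_unbounded_of_one_lt (2 * A) (by norm_num : (1 : ℝ) < 2)
    exact ⟨n, hn.le⟩
  set κ : ℝ := 1 / (64 * 2 ^ J) with hκd
  have h2J : (1 : ℝ) ≤ 2 ^ J := one_le_pow₀ (by norm_num)
  have hκ : 0 < κ := by positivity
  have hκ1 : κ ≤ 1 / 64 := by
    rw [hκd]
    apply one_div_le_one_div_of_le (by norm_num)
    linarith
  have hδ' : 0 < δ / (J + 1) := by positivity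
  obtain ⟨g0, hg0, h⟩ := range_step (δ / (J + 1)) κ hδ' hκ hκ1
  have hl36 : 0 < Real.log 36 := Real.log_pos (by norm_num)
  refine ⟨g0 + 2 * Real.log 36, by linarith, fun ν h2 h3 s hs => ?_⟩
  set G : ℝ := s - Real.log 36 with hG
  have hG1 : g0 ≤ G := by rw [hG]; linarith
  have hG2 : s ≤ 2 * G := by rw [hG]; linarith
  have hG0 : 0 < G := by linarith
  have e36 : ∀ t : ℝ, 1 / 36 * Real.exp (-(t - Real.log 36)) = Real.exp (-t) := by
    intro t
    have : -(t - Real.log 36) = -t + Real.log 36 := by ring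
    rw [this, Real.exp_add, Real.exp_log (by norm_num)]
    ring
  set Es : Set (AddCircle (1 : ℝ)) := {x | Real.exp (-s) ≤ ‖x‖} with hEs
  have hcov : {x : AddCircle (1 : ℝ) | Real.exp (-(A * s)) ≤ ‖x‖ ∧ ‖x‖ < Real.exp (-s)} ⊆
      ⋃ j ∈ Finset.range J, shell (G * 2 ^ j) := by
    intro x hx
    have hx' : Real.exp (-(A * s)) ≤ ‖x‖ := hx.1
    have h4 : x ∈ {x : AddCircle (1 : ℝ) | 1 / 36 * Real.exp (-(G * 2 ^ J)) ≤ ‖x‖} := by
      refine le_trans ?_ hx'
      rw [← e36 (A * s)]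
      have : A * s - Real.log 36 ≤ G * 2 ^ J := by
        have h5 : A * s ≤ A * (2 * G) := mul_le_mul_of_nonneg_left hG2 (by linarith)
        have h6 : G * (2 * A) ≤ G * 2 ^ J := mul_le_mul_of_nonneg_left hJ hG0.le
        linarith
      have h7 := Real.exp_le_exp.2 (neg_le_neg this)
      linarith
    rcases sl_cover G J h4 with h5 | h5
    · exfalso
      have h6 : 1 / 36 * Real.exp (-G) ≤ ‖x‖ := h5
      rw [hG, e36 s] at h6
      exact absurd hx.2 (not_lt.2 h6)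
    · exact h5
  have hout : ∀ j < J, outs (κ * (G * 2 ^ j)) ⊆ Es := by
    intro j hj x hx
    have hx' : 1 / 36 * Real.exp (-(κ * (G * 2 ^ j))) < ‖x‖ := hx
    have h4 : κ * (G * 2 ^ j) ≤ G := by
      have h5 : (2 : ℝ) ^ j ≤ 2 ^ J := pow_le_pow_right₀ (by norm_num) hj.le
      have h6 : κ * 2 ^ J = 1 / 64 := by rw [hκd]; field_simp
      have h7 : κ * 2 ^ j ≤ κ * 2 ^ J := mul_le_mul_of_nonneg_left h5 hκ.le
      nlinarith
    have h5 := Real.exp_le_exp.2 (neg_le_neg h4)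
    have h6 := e36 s
    change Real.exp (-s) ≤ ‖x‖
    rw [← h6]
    change 1 / 36 * Real.exp (-G) ≤ ‖x‖
    linarith
  calc ν {x | Real.exp (-(A * s)) ≤ ‖x‖ ∧ ‖x‖ < Real.exp (-s)}
      ≤ ν (⋃ j ∈ Finset.range J, shell (G * 2 ^ j)) := measure_mono hcov
    _ ≤ ∑ j ∈ Finset.range J, ν (shell (G * 2 ^ j)) := measure_biUnion_finset_le _ _
    _ ≤ ∑ j ∈ Finset.range J, ENNReal.ofReal (δ / (J + 1)) * ν Es := by
        gcongr with j hj
        have h2j : (1 : ℝ) ≤ 2 ^ j := one_le_pow₀ (by norm_num)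
        have hsj : G ≤ G * 2 ^ j := by nlinarith
        refine (h ν h2 h3 (G * 2 ^ j) (by linarith)).trans ?_
        exact mul_le_mul' le_rfl (measure_mono (hout j (Finset.mem_range.1 hj)))
    _ = ENNReal.ofReal (J * (δ / (J + 1))) * ν Es := by
        rw [Finset.sum_const, Finset.card_range, nsmul_eq_mul, ← mul_assoc,
          ← ENNReal.ofReal_natCast, ← ENNReal.ofReal_mul (Nat.cast_nonneg J)]
    _ ≤ ENNReal.ofReal δ * ν Es := by
        refine mul_le_mul' (ENNReal.ofReal_le_ofReal ?_) le_rfl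
        rw [mul_div_assoc', div_le_iff₀ (by positivity)]
        nlinarith

/-- the unit annuli: mass at most `(δ / s) ν{‖x‖ ≥ exp (-s)}` -/
theorem unit_annulus (δ : ℝ) (hδ : 0 < δ) :
    ∃ s0 : ℝ, 1 ≤ s0 ∧ ∀ ν : Measure (AddCircle (1 : ℝ)),
      MeasurePreserving (fun x => (2 : ℕ) • x) ν ν → MeasurePreserving (fun x => (3 : ℕ) • x) ν ν →
      ∀ s ≥ s0, ν {x | Real.exp (-(s + 1)) ≤ ‖x‖ ∧ ‖x‖ < Real.exp (-s)} ≤
        ENNReal.ofReal (δ / s) * ν {x | Real.exp (-s) ≤ ‖x‖} := by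
  obtain ⟨s0, hs0, h⟩ := slow_diff 3 (δ / 4) (by norm_num) (by positivity)
  refine ⟨2 * s0 + 8, by linarith, fun ν h2 h3 s hs => ?_⟩
  have hs1 : 10 ≤ s := by linarith
  have hsp : 0 < s := by linarith
  have hd := h ν h2 h3 (s / 2) (by linarith)
  -- the disjoint annuli
  set n : ℕ := ⌊s / 4⌋₊ + 1 with hn
  have hn1 : s / 4 ≤ n := by
    rw [hn]; push_cast; exact (Nat.lt_floor_add_one _).le
  have hl4 : Real.log 4 < 1.4 := by
    have e : (4 : ℝ) = 2 ^ 2 := by norm_num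
    rw [e, Real.log_pow]
    have := Real.log_two_lt_d9
    push_cast
    linarith
  have hl4' : 1 < Real.log 4 := by
    have e : (4 : ℝ) = 2 ^ 2 := by norm_num
    rw [e, Real.log_pow]
    have := Real.log_two_gt_d9
    push_cast
    linarith
  have h4i : ∀ i < n, (4 : ℝ) ^ i * Real.exp (-s) ≤ Real.exp (-(s / 2)) := by
    intro i hi
    have hi' : (i : ℝ) ≤ s / 4 := by
      have : i ≤ ⌊s / 4⌋₊ := by omega
      exact (Nat.le_floor_iff (by positivity)).1 this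
    have e : (4 : ℝ) ^ i = Real.exp (i * Real.log 4) := by
      rw [Real.exp_nat_mul, Real.exp_log (by norm_num)]
    rw [e, ← Real.exp_add]
    apply Real.exp_le_exp.2
    have : (i : ℝ) * Real.log 4 ≤ s / 4 * 1.4 :=
      mul_le_mul hi' hl4.le (by linarith) (by positivity)
    linarith
  set S : ℕ → Set (AddCircle (1 : ℝ)) := fun i =>
    {x | (4 : ℝ) ^ i * Real.exp (-(s + 1)) ≤ ‖x‖ ∧ ‖x‖ < (4 : ℝ) ^ i * Real.exp (-s)} with hS
  have hSm : ∀ i, MeasurableSet (S i) := fun i =>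
    (isClosed_le continuous_const continuous_norm).measurableSet.inter
      (isOpen_lt continuous_norm continuous_const).measurableSet
  have hlow : ∀ i < n, ν (S 0) ≤ ν (S i) := by
    intro i hi
    have hmp := GR1_mp ν h2 h3 (2 * i) 0
    have hmp' := hmp.measure_preimage (hSm i).nullMeasurableSet
    rw [← hmp']
    apply measure_mono
    intro x hx
    have hx1 : Real.exp (-(s + 1)) ≤ ‖x‖ := by simpa [hS] using hx.1
    have hx2 : ‖x‖ < Real.exp (-s) := by simpa [hS] using hx.2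
    have e4 : ((2 ^ (2 * i) * 3 ^ 0 : ℕ) : ℝ) = (4 : ℝ) ^ i := by
      push_cast
      rw [pow_mul]
      norm_num
    have h4 : (4 : ℝ) ^ i * ‖x‖ ≤ 1 / 2 := by
      have h5 : (4 : ℝ) ^ i * ‖x‖ ≤ (4 : ℝ) ^ i * Real.exp (-s) :=
        mul_le_mul_of_nonneg_left hx2.le (by positivity)
      have h6 := h4i i hi
      have h7 : Real.exp (-(s / 2)) ≤ 1 / 2 := by
        have h8 : Real.exp (-(s / 2)) ≤ Real.exp (-1) := Real.exp_le_exp.2 (by linarith)
        have h9 : Real.exp (-1) ≤ 1 / 2 := by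
          rw [Real.exp_neg, ← one_div]
          apply one_div_le_one_div_of_le (by norm_num)
          have := Real.exp_one_gt_d9
          linarith
        linarith
      linarith
    have hnorm : ‖(2 ^ (2 * i) * 3 ^ 0 : ℕ) • x‖ = (4 : ℝ) ^ i * ‖x‖ := by
      rw [GR2_norm x _ (by rw [e4]; exact h4), e4]
    change (4 : ℝ) ^ i * Real.exp (-(s + 1)) ≤ ‖(2 ^ (2 * i) * 3 ^ 0 : ℕ) • x‖ ∧
      ‖(2 ^ (2 * i) * 3 ^ 0 : ℕ) • x‖ < (4 : ℝ) ^ i * Real.exp (-s)
    rw [hnorm]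
    exact ⟨mul_le_mul_of_nonneg_left hx1 (by positivity),
      mul_lt_mul_of_pos_left hx2 (by positivity)⟩
  have hdisj : Set.PairwiseDisjoint (↑(Finset.range n) : Set ℕ) S := by
    have key : ∀ i j : ℕ, i < j → Disjoint (S i) (S j) := by
      intro i j hij
      rw [Set.disjoint_left]
      intro x hx hx'
      have h5 : ‖x‖ < (4 : ℝ) ^ i * Real.exp (-s) := hx.2
      have h6 : (4 : ℝ) ^ j * Real.exp (-(s + 1)) ≤ ‖x‖ := hx'.1
      have h7 : (4 : ℝ) ^ (i + 1) ≤ 4 ^ j := pow_le_pow_right₀ (by norm_num) hij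
      have h8 : Real.exp (-s) ≤ 4 * Real.exp (-(s + 1)) := by
        have e : -s = 1 + -(s + 1) := by ring
        rw [e, Real.exp_add]
        have := Real.exp_one_lt_d9
        have h9 := Real.exp_pos (-(s + 1))
        nlinarith
      have h9 : (4 : ℝ) ^ i * Real.exp (-s) ≤ (4 : ℝ) ^ i * (4 * Real.exp (-(s + 1))) :=
        mul_le_mul_of_nonneg_left h8 (by positivity)
      have h10 : (4 : ℝ) ^ (i + 1) * Real.exp (-(s + 1)) ≤ 4 ^ j * Real.exp (-(s + 1)) :=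
        mul_le_mul_of_nonneg_right h7 (Real.exp_pos _).le
      have h11 : (4 : ℝ) ^ (i + 1) * Real.exp (-(s + 1)) =
          (4 : ℝ) ^ i * (4 * Real.exp (-(s + 1))) := by rw [pow_succ]; ring
      linarith
    intro i _ j _ hij
    rcases lt_or_gt_of_ne hij with h | h
    · exact key i j h
    · exact (key j i h).symm
  have hsub : (⋃ i ∈ Finset.range n, S i) ⊆
      {x | Real.exp (-(3 * (s / 2))) ≤ ‖x‖ ∧ ‖x‖ < Real.exp (-(s / 2))} := by
    intro x hx
    simp only [mem_iUnion, Finset.mem_range] at hx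
    obtain ⟨i, hi, hx1, hx2⟩ := hx
    constructor
    · refine le_trans ?_ hx1
      have h5 : Real.exp (-(3 * (s / 2))) ≤ Real.exp (-(s + 1)) :=
        Real.exp_le_exp.2 (by linarith)
      have h6 : (1 : ℝ) ≤ 4 ^ i := one_le_pow₀ (by norm_num)
      have h7 := Real.exp_pos (-(s + 1))
      nlinarith
    · exact hx2.trans_le (h4i i hi)
  have hsum : (n : ℝ≥0∞) * ν (S 0) ≤ ENNReal.ofReal (δ / 4) * ν {x | Real.exp (-s) ≤ ‖x‖} := by
    calc (n : ℝ≥0∞) * ν (S 0) = ∑ _i ∈ Finset.range n, ν (S 0) := by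
          rw [Finset.sum_const, Finset.card_range, nsmul_eq_mul]
      _ ≤ ∑ i ∈ Finset.range n, ν (S i) :=
          Finset.sum_le_sum fun i hi => hlow i (Finset.mem_range.1 hi)
      _ = ν (⋃ i ∈ Finset.range n, S i) :=
          (measure_biUnion_finset hdisj fun i _ => hSm i).symm
      _ ≤ ν {x | Real.exp (-(3 * (s / 2))) ≤ ‖x‖ ∧ ‖x‖ < Real.exp (-(s / 2))} :=
          measure_mono hsub
      _ ≤ ENNReal.ofReal (δ / 4) * ν {x | Real.exp (-(s / 2)) ≤ ‖x‖} := hd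
      _ ≤ ENNReal.ofReal (δ / 4) * ν {x | Real.exp (-s) ≤ ‖x‖} := by
          refine mul_le_mul' le_rfl (measure_mono ?_)
          intro x hx
          have hx' : Real.exp (-(s / 2)) ≤ ‖x‖ := hx
          have : Real.exp (-s) ≤ Real.exp (-(s / 2)) := Real.exp_le_exp.2 (by linarith)
          exact this.trans hx'
  have e0 : {x : AddCircle (1 : ℝ) | Real.exp (-(s + 1)) ≤ ‖x‖ ∧ ‖x‖ < Real.exp (-s)} = S 0 := by
    rw [hS]
    simp only [pow_zero, one_mul]
  rw [e0]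
  have hs4 : 0 < s / 4 := by positivity
  have h5 : ENNReal.ofReal (s / 4) * ν (S 0) ≤
      ENNReal.ofReal (s / 4) * (ENNReal.ofReal (δ / s) * ν {x | Real.exp (-s) ≤ ‖x‖}) := by
    have e1 : ENNReal.ofReal (s / 4) * (ENNReal.ofReal (δ / s) * ν {x | Real.exp (-s) ≤ ‖x‖}) =
        ENNReal.ofReal (δ / 4) * ν {x | Real.exp (-s) ≤ ‖x‖} := by
      rw [← mul_assoc, ← ENNReal.ofReal_mul hs4.le]
      congr 2
      field_simp
    rw [e1]
    refine le_trans (mul_le_mul' ?_ le_rfl) hsum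
    rw [← ENNReal.ofReal_natCast]
    exact ENNReal.ofReal_le_ofReal hn1
  exact (ENNReal.mul_le_mul_iff_right (ENNReal.ofReal_pos.2 hs4).ne' ENNReal.ofReal_ne_top).1 h5

/-- one unit step -/
theorem unit_step (δ : ℝ) (hδ : 0 < δ) :
    ∃ s0 : ℝ, 1 ≤ s0 ∧ ∀ ν : Measure (AddCircle (1 : ℝ)),
      MeasurePreserving (fun x => (2 : ℕ) • x) ν ν → MeasurePreserving (fun x => (3 : ℕ) • x) ν ν →
      ∀ s ≥ s0, ∀ w : ℝ, 1 / 2 ≤ w → w ≤ 1 → ν {x | Real.exp (-(s + w)) ≤ ‖x‖} ≤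
        ENNReal.ofReal (((s + w) / s) ^ δ) * ν {x | Real.exp (-s) ≤ ‖x‖} := by
  obtain ⟨s0, hs0, h⟩ := unit_annulus (δ / 4) (by positivity)
  refine ⟨s0, hs0, fun ν h2 h3 s hs w hw1 hw2 => ?_⟩
  have hs1 : 1 ≤ s := by linarith
  have hsp : 0 < s := by linarith
  have hcov : {x : AddCircle (1 : ℝ) | Real.exp (-(s + w)) ≤ ‖x‖} ⊆
      {x | Real.exp (-s) ≤ ‖x‖} ∪ {x | Real.exp (-(s + 1)) ≤ ‖x‖ ∧ ‖x‖ < Real.exp (-s)} := by
    intro x hx
    have hx' : Real.exp (-(s + w)) ≤ ‖x‖ := hx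
    by_cases hc : Real.exp (-s) ≤ ‖x‖
    · exact Or.inl hc
    · right
      have : Real.exp (-(s + 1)) ≤ Real.exp (-(s + w)) := Real.exp_le_exp.2 (by linarith)
      exact ⟨this.trans hx', not_le.1 hc⟩
  have hreal : 1 + δ / 4 / s ≤ ((s + w) / s) ^ δ := by
    have hy : 0 < (s + w) / s := by positivity
    have h1 : 1 + δ / 4 / s ≤ Real.exp (δ / 4 / s) := by
      have := Real.add_one_le_exp (δ / 4 / s)
      linarith
    have h2 : 1 - ((s + w) / s)⁻¹ ≤ Real.log ((s + w) / s) := Real.one_sub_inv_le_log_of_pos hy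
    have h3 : 1 / (4 * s) ≤ 1 - ((s + w) / s)⁻¹ := by
      rw [inv_div]
      have e : 1 - s / (s + w) = w / (s + w) := by field_simp; ring
      rw [e, div_le_div_iff₀ (by positivity) (by positivity)]
      nlinarith
    have h4 : δ / 4 / s ≤ Real.log ((s + w) / s) * δ := by
      have e : δ / 4 / s = (1 / (4 * s)) * δ := by field_simp
      rw [e]
      exact mul_le_mul_of_nonneg_right (h3.trans h2) hδ.le
    rw [Real.rpow_def_of_pos hy]
    exact h1.trans (Real.exp_le_exp.2 h4)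
  calc ν {x | Real.exp (-(s + w)) ≤ ‖x‖}
      ≤ ν {x | Real.exp (-s) ≤ ‖x‖} +
        ν {x | Real.exp (-(s + 1)) ≤ ‖x‖ ∧ ‖x‖ < Real.exp (-s)} :=
        (measure_mono hcov).trans (measure_union_le _ _)
    _ ≤ ν {x | Real.exp (-s) ≤ ‖x‖} + ENNReal.ofReal (δ / 4 / s) * ν {x | Real.exp (-s) ≤ ‖x‖} := by
        gcongr
        exact h ν h2 h3 s hs
    _ = ENNReal.ofReal (1 + δ / 4 / s) * ν {x | Real.exp (-s) ≤ ‖x‖} := by
        rw [ENNReal.ofReal_add (by norm_num) (by positivity), ENNReal.ofReal_one]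
        ring
    _ ≤ _ := mul_le_mul' (ENNReal.ofReal_le_ofReal hreal) le_rfl

/-- the power bound for `q = 1` -/
theorem potter_one (δ : ℝ) (hδ : 0 < δ) :
    ∃ s0 : ℝ, 1 ≤ s0 ∧ ∀ ν : Measure (AddCircle (1 : ℝ)),
      MeasurePreserving (fun x => (2 : ℕ) • x) ν ν → MeasurePreserving (fun x => (3 : ℕ) • x) ν ν →
      ∀ s t : ℝ, s0 ≤ s → s + 1 ≤ t → ν {x | Real.exp (-t) ≤ ‖x‖} ≤
        ENNReal.ofReal ((t / s) ^ δ) * ν {x | Real.exp (-s) ≤ ‖x‖} := by
  obtain ⟨s0, hs0, h⟩ := unit_step δ hδ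
  refine ⟨s0, hs0, fun ν h2 h3 s t hs hst => ?_⟩
  have hs1 : 1 ≤ s := by linarith
  have hsp : 0 < s := by linarith
  set n : ℕ := ⌈t - s⌉₊ with hn
  have hn0 : t - s ≤ n := Nat.le_ceil _
  have hn1 : (n : ℝ) < t - s + 1 := Nat.ceil_lt_add_one (by linarith)
  have hnp : (0 : ℝ) < n := by linarith
  set w : ℝ := (t - s) / n with hw
  have hw1 : w ≤ 1 := by rw [hw, div_le_one hnp]; exact hn0
  have hw2 : 1 / 2 ≤ w := by
    rw [hw, div_le_div_iff₀ (by norm_num) hnp]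
    linarith
  have hwp : 0 < w := by linarith
  have key : ∀ m : ℕ, ν {x | Real.exp (-(s + m * w)) ≤ ‖x‖} ≤
      ENNReal.ofReal (((s + m * w) / s) ^ δ) * ν {x | Real.exp (-s) ≤ ‖x‖} := by
    intro m
    induction m with
    | zero =>
      have e : ((s + ((0 : ℕ) : ℝ) * w) / s) = 1 := by
        rw [Nat.cast_zero, zero_mul, add_zero, div_self hsp.ne']
      rw [e, Real.one_rpow, ENNReal.ofReal_one, one_mul, Nat.cast_zero, zero_mul, add_zero]
    | succ m ih =>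
      have hum : 0 ≤ (m : ℝ) * w := by positivity
      have h5 := h ν h2 h3 (s + m * w) (by linarith) w hw2 hw1
      have e : s + m * w + w = s + ((m + 1 : ℕ) : ℝ) * w := by push_cast; ring
      rw [e] at h5
      refine h5.trans ((mul_le_mul' le_rfl ih).trans (le_of_eq ?_))
      have hu : 0 < s + m * w := by linarith
      have hu' : 0 < s + ((m + 1 : ℕ) : ℝ) * w := by rw [← e]; linarith
      rw [← mul_assoc, ← ENNReal.ofReal_mul (by positivity),
        ← Real.mul_rpow (by positivity) (by positivity)]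
      congr 3
      field_simp
  have h6 := key n
  have e : s + n * w = t := by rw [hw]; field_simp; ring
  rw [e] at h6
  exact h6

/-- UNIFORM SLOW VARIATION, power form. -/
theorem potter (δ : ℝ) (hδ : 0 < δ) :
    ∃ s0 : ℝ, 1 ≤ s0 ∧ ∀ ν : Measure (AddCircle (1 : ℝ)),
      MeasurePreserving (fun x => (2 : ℕ) • x) ν ν → MeasurePreserving (fun x => (3 : ℕ) • x) ν ν →
      ∀ (q : ℤ) (s t : ℝ), s0 ≤ s → s + 1 ≤ t → ν {x | Real.exp (-t) ≤ ‖q • x‖} ≤
        ENNReal.ofReal ((t / s) ^ δ) * ν {x | Real.exp (-s) ≤ ‖q • x‖} := by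
  obtain ⟨s0, hs0, h⟩ := potter_one δ hδ
  refine ⟨s0, hs0, fun ν h2 h3 q s t hs hst => ?_⟩
  have h4 := h (ν.map (fun x => q • x)) (GROWTH_map ν q 2 h2) (GROWTH_map ν q 3 h3) s t hs hst
  have hq : Measurable (fun x : AddCircle (1 : ℝ) => q • x) := (continuous_zsmul q).measurable
  have hm : ∀ c : ℝ, MeasurableSet {x : AddCircle (1 : ℝ) | c ≤ ‖x‖} := fun c =>
    (isClosed_le continuous_const continuous_norm).measurableSet
  rw [Measure.map_apply hq (hm _), Measure.map_apply hq (hm _)] at h4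
  exact h4

end Pool.Agent.SlowV
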